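import Pool.Agent.Lib.MP_0bc52e_nt.K.Uni

/-!
The certificates for the modulus 101 (MP_0bc52e_nt).
-/

namespace Pool.Agent.Lib.MP_0bc52e_nt.K

open Pool.Agent.Lib.MP_0bc52e_nt.LC Pool.Agent.Lib.MP_0bc52e_nt.T Pool.Agent.Lib.MP_0bc52e_nt.R

lemma th_101 : ∀ R ∈ Theta, ∀ u, Dd PP0 101 (R.map toP) u :=
  theta_all (P := fun V => ∀ u, Dd PP0 101 V u) (u_th4 (by norm_num))
    (u_th5 (by norm_num))
    (u_th7 (by norm_num))
    (u_th11 (by norm_num))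
    (u_th13 (by norm_num))
    (u_th17 (by norm_num))
    (u_th19 (by norm_num))
    (u_th20 (by norm_num))

lemma be_101 : ∀ R ∈ Beta, ∀ u, Dd PP0 101 (R.map toP) u :=
  beta_all (P := fun V => ∀ u, Dd PP0 101 V u) (u_b11 (by norm_num))
    (u_b12 (by norm_num))
    (u_b13 (by norm_num))
    (u_b14 (by norm_num))
    (u_b15 (by norm_num))
    (u_b21 (by norm_num))
    (u_b23 (by norm_num))
    (u_b25 (by norm_num))
    (u_b27 (by norm_num))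
    (u_b31 (by norm_num))
    (u_b35 (by norm_num))
    (u_b37 (by norm_num))
    (u_b311 (by norm_num))
    (u_bi3 (by norm_num))

lemma s_WU1_101 : ∀ r : ℤ, 0 ≤ r → r < 101 → inl [(0, 19), (21, 23), (26, 29), (34, 38), (41, 41), (51, 59), (61, 62), (68, 71), (76, 77), (81, 81)] r = true → Sd PP1 101 (VU 0) r :=
  deadA (V := V_WU1) (by norm_num) q_cls.2.1 (cell_WU1 q_cls.2.1) q_fam.2.1 (q_sym1 V_WU1 S_WU1 101 [(0, 19), (21, 23), (26, 29), (34, 38), (41, 41), (51, 59), (61, 62), (68, 71), (76, 77), (81, 81)] (by norm_num) ck_WU1 blk_WU1) k_WU1_101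

lemma s_WUh_101 : ∀ r : ℤ, 0 ≤ r → r < 101 → inl [(0, 13)] r = true → Sd (PPh 0) 101 (VU 0) r :=
  deadA (V := V_WUh) (by norm_num) (q_cls.2.2 0) (cell_WUh (q_cls.2.2 0)) (q_fam.2.2 0) (q_symI (PPh 0) V_WUh 101 [(0, 13)]) k_WUh_101

lemma s_WH1_101 : ∀ r : ℤ, 0 ≤ r → r < 101 → inl [(1, 87)] r = true → Sd PP1 101 (VH 0) r :=
  deadA (V := V_WH1) (by norm_num) q_cls.2.1 (cell_WH1 q_cls.2.1) q_fam.2.1 (q_symI PP1 V_WH1 101 [(1, 87)]) k_WH1_101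

lemma s_WHh_101 : ∀ r : ℤ, 0 ≤ r → r < 101 → inl [(0, 42), (44, 44), (51, 56), (58, 58)] r = true → Sd (PPh 0) 101 (VH 0) r :=
  deadA (V := V_WHh) (by norm_num) (q_cls.2.2 0) (cell_WHh (q_cls.2.2 0)) (q_fam.2.2 0) (q_symI (PPh 0) V_WHh 101 [(0, 42), (44, 44), (51, 56), (58, 58)]) k_WHh_101

lemma pa_W_101 : PA 101 0 :=
  ⟨covq 101 (by norm_num) (by norm_num) (by decide +kernel) s_WU1_101 s_WU1_101,
    covq 101 (by norm_num) (by norm_num) (by decide +kernel) s_WUh_101 s_WH1_101,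
    covq 101 (by norm_num) (by norm_num) (by decide +kernel) s_WHh_101 s_WHh_101⟩

lemma s_TU1_101 : ∀ r : ℤ, 0 ≤ r → r < 101 → inl [(0, 19), (21, 24), (26, 30), (34, 38), (41, 42), (51, 58), (61, 62), (68, 70), (76, 76), (81, 81)] r = true → Sd PP1 101 (VU 1) r :=
  deadA (V := V_TU1) (by norm_num) q_cls.2.1 (cell_TU1 q_cls.2.1) q_fam.2.1 (q_sym1 V_TU1 S_TU1 101 [(0, 19), (21, 24), (26, 30), (34, 38), (41, 42), (51, 58), (61, 62), (68, 70), (76, 76), (81, 81)] (by norm_num) ck_TU1 blk_TU1) k_TU1_101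

lemma s_TUh_101 : ∀ r : ℤ, 0 ≤ r → r < 101 → inl [(0, 19), (21, 22)] r = true → Sd (PPh 1) 101 (VU 1) r :=
  deadA (V := V_TUh) (by norm_num) (q_cls.2.2 1) (cell_TUh (q_cls.2.2 1)) (q_fam.2.2 1) (q_symI (PPh 1) V_TUh 101 [(0, 19), (21, 22)]) k_TUh_101

lemma s_TH1_101 : ∀ r : ℤ, 0 ≤ r → r < 101 → inl [(1, 78), (81, 81)] r = true → Sd PP1 101 (VH 1) r :=
  deadA (V := V_TH1) (by norm_num) q_cls.2.1 (cell_TH1 q_cls.2.1) q_fam.2.1 (q_symI PP1 V_TH1 101 [(1, 78), (81, 81)]) k_TH1_101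

lemma s_THh_101 : ∀ r : ℤ, 0 ≤ r → r < 101 → inl [(0, 40), (42, 42), (51, 58), (60, 60)] r = true → Sd (PPh 1) 101 (VH 1) r :=
  deadA (V := V_THh) (by norm_num) (q_cls.2.2 1) (cell_THh (q_cls.2.2 1)) (q_fam.2.2 1) (q_symI (PPh 1) V_THh 101 [(0, 40), (42, 42), (51, 58), (60, 60)]) k_THh_101

lemma pa_T_101 : PA 101 1 :=
  ⟨covq 101 (by norm_num) (by norm_num) (by decide +kernel) s_TU1_101 s_TU1_101,
    covq 101 (by norm_num) (by norm_num) (by decide +kernel) s_TUh_101 s_TH1_101,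
    covq 101 (by norm_num) (by norm_num) (by decide +kernel) s_THh_101 s_THh_101⟩

lemma s_DU1_101 : ∀ r : ℤ, 0 ≤ r → r < 101 → inl [(0, 24), (26, 31), (34, 38), (41, 41), (51, 59), (61, 62), (68, 69), (76, 76)] r = true → Sd PP1 101 (VU 2) r :=
  deadA (V := V_DU1) (by norm_num) q_cls.2.1 (cell_DU1 q_cls.2.1) q_fam.2.1 (q_sym1 V_DU1 S_DU1 101 [(0, 24), (26, 31), (34, 38), (41, 41), (51, 59), (61, 62), (68, 69), (76, 76)] (by norm_num) ck_DU1 blk_DU1) k_DU1_101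

lemma s_DUh_101 : ∀ r : ℤ, 0 ≤ r → r < 101 → inl [(0, 23), (26, 26), (34, 34), (51, 56)] r = true → Sd (PPh 2) 101 (VU 2) r :=
  deadA (V := V_DUh) (by norm_num) (q_cls.2.2 2) (cell_DUh (q_cls.2.2 2)) (q_fam.2.2 2) (q_symI (PPh 2) V_DUh 101 [(0, 23), (26, 26), (34, 34), (51, 56)]) k_DUh_101

lemma s_DH1_101 : ∀ r : ℤ, 0 ≤ r → r < 101 → inl [(1, 44), (51, 66), (68, 74), (76, 77)] r = true → Sd PP1 101 (VH 2) r :=
  deadA (V := V_DH1) (by norm_num) q_cls.2.1 (cell_DH1 q_cls.2.1) q_fam.2.1 (q_symI PP1 V_DH1 101 [(1, 44), (51, 66), (68, 74), (76, 77)]) k_DH1_101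

lemma s_DHh_101 : ∀ r : ℤ, 0 ≤ r → r < 101 → inl [(0, 38), (40, 40), (42, 42), (51, 58), (60, 60), (62, 62)] r = true → Sd (PPh 2) 101 (VH 2) r :=
  deadA (V := V_DHh) (by norm_num) (q_cls.2.2 2) (cell_DHh (q_cls.2.2 2)) (q_fam.2.2 2) (q_symI (PPh 2) V_DHh 101 [(0, 38), (40, 40), (42, 42), (51, 58), (60, 60), (62, 62)]) k_DHh_101

lemma pa_D_101 : PA 101 2 :=
  ⟨covq 101 (by norm_num) (by norm_num) (by decide +kernel) s_DU1_101 s_DU1_101,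
    covq 101 (by norm_num) (by norm_num) (by decide +kernel) s_DUh_101 s_DH1_101,
    covq 101 (by norm_num) (by norm_num) (by decide +kernel) s_DHh_101 s_DHh_101⟩

theorem dead_101 : DeadAll 101 := mkDead 101 (by norm_num) th_101 be_101 pa_W_101 pa_T_101 pa_D_101

end Pool.Agent.Lib.MP_0bc52e_nt.K
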