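import Pool.Agent.Lib.MP_0bc52e_nt.K.Uni

/-!
The certificates for the modulus 103 (MP_0bc52e_nt).
-/

namespace Pool.Agent.Lib.MP_0bc52e_nt.K

open Pool.Agent.Lib.MP_0bc52e_nt.LC Pool.Agent.Lib.MP_0bc52e_nt.T Pool.Agent.Lib.MP_0bc52e_nt.R

lemma th_103 : ∀ R ∈ Theta, ∀ u, Dd PP0 103 (R.map toP) u :=
  theta_all (P := fun V => ∀ u, Dd PP0 103 V u) (u_th4 (by norm_num))
    (u_th5 (by norm_num))
    (u_th7 (by norm_num))
    (u_th11 (by norm_num))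
    (u_th13 (by norm_num))
    (u_th17 (by norm_num))
    (u_th19 (by norm_num))
    (u_th20 (by norm_num))

lemma be_103 : ∀ R ∈ Beta, ∀ u, Dd PP0 103 (R.map toP) u :=
  beta_all (P := fun V => ∀ u, Dd PP0 103 V u) (u_b11 (by norm_num))
    (u_b12 (by norm_num))
    (u_b13 (by norm_num))
    (u_b14 (by norm_num))
    (u_b15 (by norm_num))
    (u_b21 (by norm_num))
    (u_b23 (by norm_num))
    (u_b25 (by norm_num))
    (u_b27 (by norm_num))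
    (u_b31 (by norm_num))
    (u_b35 (by norm_num))
    (u_b37 (by norm_num))
    (u_b311 (by norm_num))
    (u_bi3 (by norm_num))

lemma s_WU1_103 : ∀ r : ℤ, 0 ≤ r → r < 103 → inl [(0, 16), (18, 19), (21, 24), (26, 30), (35, 39), (42, 42), (52, 60), (62, 63), (69, 72), (78, 78), (83, 83), (86, 86)] r = true → Sd PP1 103 (VU 0) r :=
  deadA (V := V_WU1) (by norm_num) q_cls.2.1 (cell_WU1 q_cls.2.1) q_fam.2.1 (q_sym1 V_WU1 S_WU1 103 [(0, 16), (18, 19), (21, 24), (26, 30), (35, 39), (42, 42), (52, 60), (62, 63), (69, 72), (78, 78), (83, 83), (86, 86)] (by norm_num) ck_WU1 blk_WU1) k_WU1_103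

lemma s_WUh_103 : ∀ r : ℤ, 0 ≤ r → r < 103 → inl [(0, 13)] r = true → Sd (PPh 0) 103 (VU 0) r :=
  deadA (V := V_WUh) (by norm_num) (q_cls.2.2 0) (cell_WUh (q_cls.2.2 0)) (q_fam.2.2 0) (q_symI (PPh 0) V_WUh 103 [(0, 13)]) k_WUh_103

lemma s_WH1_103 : ∀ r : ℤ, 0 ≤ r → r < 103 → inl [(1, 89)] r = true → Sd PP1 103 (VH 0) r :=
  deadA (V := V_WH1) (by norm_num) q_cls.2.1 (cell_WH1 q_cls.2.1) q_fam.2.1 (q_symI PP1 V_WH1 103 [(1, 89)]) k_WH1_103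

lemma s_WHh_103 : ∀ r : ℤ, 0 ≤ r → r < 103 → inl [(0, 43), (46, 46), (52, 56), (58, 59)] r = true → Sd (PPh 0) 103 (VH 0) r :=
  deadA (V := V_WHh) (by norm_num) (q_cls.2.2 0) (cell_WHh (q_cls.2.2 0)) (q_fam.2.2 0) (q_symI (PPh 0) V_WHh 103 [(0, 43), (46, 46), (52, 56), (58, 59)]) k_WHh_103

lemma pa_W_103 : PA 103 0 :=
  ⟨covq 103 (by norm_num) (by norm_num) (by decide +kernel) s_WU1_103 s_WU1_103,
    covq 103 (by norm_num) (by norm_num) (by decide +kernel) s_WUh_103 s_WH1_103,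
    covq 103 (by norm_num) (by norm_num) (by decide +kernel) s_WHh_103 s_WHh_103⟩

lemma s_TU1_103 : ∀ r : ℤ, 0 ≤ r → r < 103 → inl [(0, 16), (18, 19), (21, 24), (26, 31), (35, 39), (42, 42), (52, 60), (62, 63), (69, 71), (78, 78), (83, 83), (86, 86)] r = true → Sd PP1 103 (VU 1) r :=
  deadA (V := V_TU1) (by norm_num) q_cls.2.1 (cell_TU1 q_cls.2.1) q_fam.2.1 (q_sym1 V_TU1 S_TU1 103 [(0, 16), (18, 19), (21, 24), (26, 31), (35, 39), (42, 42), (52, 60), (62, 63), (69, 71), (78, 78), (83, 83), (86, 86)] (by norm_num) ck_TU1 blk_TU1) k_TU1_103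

lemma s_TUh_103 : ∀ r : ℤ, 0 ≤ r → r < 103 → inl [(0, 16), (18, 19), (21, 23)] r = true → Sd (PPh 1) 103 (VU 1) r :=
  deadA (V := V_TUh) (by norm_num) (q_cls.2.2 1) (cell_TUh (q_cls.2.2 1)) (q_fam.2.2 1) (q_symI (PPh 1) V_TUh 103 [(0, 16), (18, 19), (21, 23)]) k_TUh_103

lemma s_TH1_103 : ∀ r : ℤ, 0 ≤ r → r < 103 → inl [(1, 79), (83, 83), (86, 86)] r = true → Sd PP1 103 (VH 1) r :=
  deadA (V := V_TH1) (by norm_num) q_cls.2.1 (cell_TH1 q_cls.2.1) q_fam.2.1 (q_symI PP1 V_TH1 103 [(1, 79), (83, 83), (86, 86)]) k_TH1_103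

lemma s_THh_103 : ∀ r : ℤ, 0 ≤ r → r < 103 → inl [(0, 42), (44, 44), (52, 58), (60, 60)] r = true → Sd (PPh 1) 103 (VH 1) r :=
  deadA (V := V_THh) (by norm_num) (q_cls.2.2 1) (cell_THh (q_cls.2.2 1)) (q_fam.2.2 1) (q_symI (PPh 1) V_THh 103 [(0, 42), (44, 44), (52, 58), (60, 60)]) k_THh_103

lemma pa_T_103 : PA 103 1 :=
  ⟨covq 103 (by norm_num) (by norm_num) (by decide +kernel) s_TU1_103 s_TU1_103,
    covq 103 (by norm_num) (by norm_num) (by decide +kernel) s_TUh_103 s_TH1_103,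
    covq 103 (by norm_num) (by norm_num) (by decide +kernel) s_THh_103 s_THh_103⟩

lemma s_DU1_103 : ∀ r : ℤ, 0 ≤ r → r < 103 → inl [(0, 31), (35, 39), (42, 42), (52, 60), (62, 63), (69, 71)] r = true → Sd PP1 103 (VU 2) r :=
  deadA (V := V_DU1) (by norm_num) q_cls.2.1 (cell_DU1 q_cls.2.1) q_fam.2.1 (q_sym1 V_DU1 S_DU1 103 [(0, 31), (35, 39), (42, 42), (52, 60), (62, 63), (69, 71)] (by norm_num) ck_DU1 blk_DU1) k_DU1_103

lemma s_DUh_103 : ∀ r : ℤ, 0 ≤ r → r < 103 → inl [(0, 23), (26, 26), (52, 56)] r = true → Sd (PPh 2) 103 (VU 2) r :=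
  deadA (V := V_DUh) (by norm_num) (q_cls.2.2 2) (cell_DUh (q_cls.2.2 2)) (q_fam.2.2 2) (q_symI (PPh 2) V_DUh 103 [(0, 23), (26, 26), (52, 56)]) k_DUh_103

lemma s_DH1_103 : ∀ r : ℤ, 0 ≤ r → r < 103 → inl [(1, 46), (52, 76), (78, 79)] r = true → Sd PP1 103 (VH 2) r :=
  deadA (V := V_DH1) (by norm_num) q_cls.2.1 (cell_DH1 q_cls.2.1) q_fam.2.1 (q_symI PP1 V_DH1 103 [(1, 46), (52, 76), (78, 79)]) k_DH1_103

lemma s_DHh_103 : ∀ r : ℤ, 0 ≤ r → r < 103 → inl [(0, 40), (42, 42), (52, 60), (62, 62)] r = true → Sd (PPh 2) 103 (VH 2) r :=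
  deadA (V := V_DHh) (by norm_num) (q_cls.2.2 2) (cell_DHh (q_cls.2.2 2)) (q_fam.2.2 2) (q_symI (PPh 2) V_DHh 103 [(0, 40), (42, 42), (52, 60), (62, 62)]) k_DHh_103

lemma pa_D_103 : PA 103 2 :=
  ⟨covq 103 (by norm_num) (by norm_num) (by decide +kernel) s_DU1_103 s_DU1_103,
    covq 103 (by norm_num) (by norm_num) (by decide +kernel) s_DUh_103 s_DH1_103,
    covq 103 (by norm_num) (by norm_num) (by decide +kernel) s_DHh_103 s_DHh_103⟩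

theorem dead_103 : DeadAll 103 := mkDead 103 (by norm_num) th_103 be_103 pa_W_103 pa_T_103 pa_D_103

end Pool.Agent.Lib.MP_0bc52e_nt.K
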