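import Pool.Agent.Lib.MP_0bc52e_nt.K.Uni

/-!
The certificates for the modulus 107 (MP_0bc52e_nt).
-/

namespace Pool.Agent.Lib.MP_0bc52e_nt.K

open Pool.Agent.Lib.MP_0bc52e_nt.LC Pool.Agent.Lib.MP_0bc52e_nt.T Pool.Agent.Lib.MP_0bc52e_nt.R

lemma th_107 : ∀ R ∈ Theta, ∀ u, Dd PP0 107 (R.map toP) u :=
  theta_all (P := fun V => ∀ u, Dd PP0 107 V u) (u_th4 (by norm_num))
    (u_th5 (by norm_num))
    (u_th7 (by norm_num))
    (u_th11 (by norm_num))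
    (u_th13 (by norm_num))
    (u_th17 (by norm_num))
    (u_th19 (by norm_num))
    (u_th20 (by norm_num))

lemma be_107 : ∀ R ∈ Beta, ∀ u, Dd PP0 107 (R.map toP) u :=
  beta_all (P := fun V => ∀ u, Dd PP0 107 V u) (u_b11 (by norm_num))
    (u_b12 (by norm_num))
    (u_b13 (by norm_num))
    (u_b14 (by norm_num))
    (u_b15 (by norm_num))
    (u_b21 (by norm_num))
    (u_b23 (by norm_num))
    (u_b25 (by norm_num))
    (u_b27 (by norm_num))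
    (u_b31 (by norm_num))
    (u_b35 (by norm_num))
    (u_b37 (by norm_num))
    (u_b311 (by norm_num))
    (u_bi3 (by norm_num))

lemma s_WU1_107 : ∀ r : ℤ, 0 ≤ r → r < 107 → inl [(0, 20), (22, 25), (27, 31), (36, 40), (43, 44), (46, 46), (54, 60), (62, 62), (65, 66), (72, 75), (81, 81), (86, 86)] r = true → Sd PP1 107 (VU 0) r :=
  deadA (V := V_WU1) (by norm_num) q_cls.2.1 (cell_WU1 q_cls.2.1) q_fam.2.1 (q_sym1 V_WU1 S_WU1 107 [(0, 20), (22, 25), (27, 31), (36, 40), (43, 44), (46, 46), (54, 60), (62, 62), (65, 66), (72, 75), (81, 81), (86, 86)] (by norm_num) ck_WU1 blk_WU1) k_WU1_107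

lemma s_WUh_107 : ∀ r : ℤ, 0 ≤ r → r < 107 → inl [(0, 14)] r = true → Sd (PPh 0) 107 (VU 0) r :=
  deadA (V := V_WUh) (by norm_num) (q_cls.2.2 0) (cell_WUh (q_cls.2.2 0)) (q_fam.2.2 0) (q_symI (PPh 0) V_WUh 107 [(0, 14)]) k_WUh_107

lemma s_WH1_107 : ∀ r : ℤ, 0 ≤ r → r < 107 → inl [(1, 92)] r = true → Sd PP1 107 (VH 0) r :=
  deadA (V := V_WH1) (by norm_num) q_cls.2.1 (cell_WH1 q_cls.2.1) q_fam.2.1 (q_symI PP1 V_WH1 107 [(1, 92)]) k_WH1_107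

lemma s_WHh_107 : ∀ r : ℤ, 0 ≤ r → r < 107 → inl [(0, 45), (47, 47), (54, 59), (61, 61)] r = true → Sd (PPh 0) 107 (VH 0) r :=
  deadA (V := V_WHh) (by norm_num) (q_cls.2.2 0) (cell_WHh (q_cls.2.2 0)) (q_fam.2.2 0) (q_symI (PPh 0) V_WHh 107 [(0, 45), (47, 47), (54, 59), (61, 61)]) k_WHh_107

lemma pa_W_107 : PA 107 0 :=
  ⟨covq 107 (by norm_num) (by norm_num) (by decide +kernel) s_WU1_107 s_WU1_107,
    covq 107 (by norm_num) (by norm_num) (by decide +kernel) s_WUh_107 s_WH1_107,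
    covq 107 (by norm_num) (by norm_num) (by decide +kernel) s_WHh_107 s_WHh_107⟩

lemma s_TU1_107 : ∀ r : ℤ, 0 ≤ r → r < 107 → inl [(0, 20), (22, 25), (27, 32), (36, 40), (43, 44), (54, 62), (65, 66), (72, 74), (81, 81), (86, 86)] r = true → Sd PP1 107 (VU 1) r :=
  deadA (V := V_TU1) (by norm_num) q_cls.2.1 (cell_TU1 q_cls.2.1) q_fam.2.1 (q_sym1 V_TU1 S_TU1 107 [(0, 20), (22, 25), (27, 32), (36, 40), (43, 44), (54, 62), (65, 66), (72, 74), (81, 81), (86, 86)] (by norm_num) ck_TU1 blk_TU1) k_TU1_107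

lemma s_TUh_107 : ∀ r : ℤ, 0 ≤ r → r < 107 → inl [(0, 20), (22, 24), (27, 27)] r = true → Sd (PPh 1) 107 (VU 1) r :=
  deadA (V := V_TUh) (by norm_num) (q_cls.2.2 1) (cell_TUh (q_cls.2.2 1)) (q_fam.2.2 1) (q_symI (PPh 1) V_TUh 107 [(0, 20), (22, 24), (27, 27)]) k_TUh_107

lemma s_TH1_107 : ∀ r : ℤ, 0 ≤ r → r < 107 → inl [(1, 79), (81, 82), (86, 86)] r = true → Sd PP1 107 (VH 1) r :=
  deadA (V := V_TH1) (by norm_num) q_cls.2.1 (cell_TH1 q_cls.2.1) q_fam.2.1 (q_symI PP1 V_TH1 107 [(1, 79), (81, 82), (86, 86)]) k_TH1_107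

lemma s_THh_107 : ∀ r : ℤ, 0 ≤ r → r < 107 → inl [(0, 44), (46, 46), (54, 60), (62, 62)] r = true → Sd (PPh 1) 107 (VH 1) r :=
  deadA (V := V_THh) (by norm_num) (q_cls.2.2 1) (cell_THh (q_cls.2.2 1)) (q_fam.2.2 1) (q_symI (PPh 1) V_THh 107 [(0, 44), (46, 46), (54, 60), (62, 62)]) k_THh_107

lemma pa_T_107 : PA 107 1 :=
  ⟨covq 107 (by norm_num) (by norm_num) (by decide +kernel) s_TU1_107 s_TU1_107,
    covq 107 (by norm_num) (by norm_num) (by decide +kernel) s_TUh_107 s_TH1_107,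
    covq 107 (by norm_num) (by norm_num) (by decide +kernel) s_THh_107 s_THh_107⟩

lemma s_DU1_107 : ∀ r : ℤ, 0 ≤ r → r < 107 → inl [(0, 32), (36, 41), (43, 43), (54, 63), (65, 65), (72, 74)] r = true → Sd PP1 107 (VU 2) r :=
  deadA (V := V_DU1) (by norm_num) q_cls.2.1 (cell_DU1 q_cls.2.1) q_fam.2.1 (q_sym1 V_DU1 S_DU1 107 [(0, 32), (36, 41), (43, 43), (54, 63), (65, 65), (72, 74)] (by norm_num) ck_DU1 blk_DU1) k_DU1_107

lemma s_DUh_107 : ∀ r : ℤ, 0 ≤ r → r < 107 → inl [(0, 24), (27, 27), (36, 36), (54, 58)] r = true → Sd (PPh 2) 107 (VU 2) r :=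
  deadA (V := V_DUh) (by norm_num) (q_cls.2.2 2) (cell_DUh (q_cls.2.2 2)) (q_fam.2.2 2) (q_symI (PPh 2) V_DUh 107 [(0, 24), (27, 27), (36, 36), (54, 58)]) k_DUh_107

lemma s_DH1_107 : ∀ r : ℤ, 0 ≤ r → r < 107 → inl [(1, 48), (54, 70), (72, 79), (81, 82)] r = true → Sd PP1 107 (VH 2) r :=
  deadA (V := V_DH1) (by norm_num) q_cls.2.1 (cell_DH1 q_cls.2.1) q_fam.2.1 (q_symI PP1 V_DH1 107 [(1, 48), (54, 70), (72, 79), (81, 82)]) k_DH1_107

lemma s_DHh_107 : ∀ r : ℤ, 0 ≤ r → r < 107 → inl [(0, 40), (42, 42), (44, 44), (54, 62), (64, 64), (66, 66)] r = true → Sd (PPh 2) 107 (VH 2) r :=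
  deadA (V := V_DHh) (by norm_num) (q_cls.2.2 2) (cell_DHh (q_cls.2.2 2)) (q_fam.2.2 2) (q_symI (PPh 2) V_DHh 107 [(0, 40), (42, 42), (44, 44), (54, 62), (64, 64), (66, 66)]) k_DHh_107

lemma pa_D_107 : PA 107 2 :=
  ⟨covq 107 (by norm_num) (by norm_num) (by decide +kernel) s_DU1_107 s_DU1_107,
    covq 107 (by norm_num) (by norm_num) (by decide +kernel) s_DUh_107 s_DH1_107,
    covq 107 (by norm_num) (by norm_num) (by decide +kernel) s_DHh_107 s_DHh_107⟩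

theorem dead_107 : DeadAll 107 := mkDead 107 (by norm_num) th_107 be_107 pa_W_107 pa_T_107 pa_D_107

end Pool.Agent.Lib.MP_0bc52e_nt.K
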