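import Pool.Agent.Lib.MP_0bc52e_nt.K.Uni

/-!
The certificates for the modulus 109 (MP_0bc52e_nt).
-/

namespace Pool.Agent.Lib.MP_0bc52e_nt.K

open Pool.Agent.Lib.MP_0bc52e_nt.LC Pool.Agent.Lib.MP_0bc52e_nt.T Pool.Agent.Lib.MP_0bc52e_nt.R

lemma th_109 : ∀ R ∈ Theta, ∀ u, Dd PP0 109 (R.map toP) u :=
  theta_all (P := fun V => ∀ u, Dd PP0 109 V u) (u_th4 (by norm_num))
    (u_th5 (by norm_num))
    (u_th7 (by norm_num))
    (u_th11 (by norm_num))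
    (u_th13 (by norm_num))
    (u_th17 (by norm_num))
    (u_th19 (by norm_num))
    (u_th20 (by norm_num))

lemma be_109 : ∀ R ∈ Beta, ∀ u, Dd PP0 109 (R.map toP) u :=
  beta_all (P := fun V => ∀ u, Dd PP0 109 V u) (u_b11 (by norm_num))
    (u_b12 (by norm_num))
    (u_b13 (by norm_num))
    (u_b14 (by norm_num))
    (u_b15 (by norm_num))
    (u_b21 (by norm_num))
    (u_b23 (by norm_num))
    (u_b25 (by norm_num))
    (u_b27 (by norm_num))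
    (u_b31 (by norm_num))
    (u_b35 (by norm_num))
    (u_b37 (by norm_num))
    (u_b311 (by norm_num))
    (u_bi3 (by norm_num))

lemma s_WU1_109 : ∀ r : ℤ, 0 ≤ r → r < 109 → inl [(0, 17), (19, 20), (22, 25), (28, 30), (32, 32), (37, 41), (44, 45), (55, 63), (66, 67), (73, 76), (78, 78), (82, 83), (88, 88), (91, 91)] r = true → Sd PP1 109 (VU 0) r :=
  deadA (V := V_WU1) (by norm_num) q_cls.2.1 (cell_WU1 q_cls.2.1) q_fam.2.1 (q_sym1 V_WU1 S_WU1 109 [(0, 17), (19, 20), (22, 25), (28, 30), (32, 32), (37, 41), (44, 45), (55, 63), (66, 67), (73, 76), (78, 78), (82, 83), (88, 88), (91, 91)] (by norm_num) ck_WU1 blk_WU1) k_WU1_109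

lemma s_WUh_109 : ∀ r : ℤ, 0 ≤ r → r < 109 → inl [(0, 14)] r = true → Sd (PPh 0) 109 (VU 0) r :=
  deadA (V := V_WUh) (by norm_num) (q_cls.2.2 0) (cell_WUh (q_cls.2.2 0)) (q_fam.2.2 0) (q_symI (PPh 0) V_WUh 109 [(0, 14)]) k_WUh_109

lemma s_WH1_109 : ∀ r : ℤ, 0 ≤ r → r < 109 → inl [(1, 94)] r = true → Sd PP1 109 (VH 0) r :=
  deadA (V := V_WH1) (by norm_num) q_cls.2.1 (cell_WH1 q_cls.2.1) q_fam.2.1 (q_symI PP1 V_WH1 109 [(1, 94)]) k_WH1_109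

lemma s_WHh_109 : ∀ r : ℤ, 0 ≤ r → r < 109 → inl [(0, 45), (47, 48), (55, 60), (63, 63)] r = true → Sd (PPh 0) 109 (VH 0) r :=
  deadA (V := V_WHh) (by norm_num) (q_cls.2.2 0) (cell_WHh (q_cls.2.2 0)) (q_fam.2.2 0) (q_symI (PPh 0) V_WHh 109 [(0, 45), (47, 48), (55, 60), (63, 63)]) k_WHh_109

lemma pa_W_109 : PA 109 0 :=
  ⟨covq 109 (by norm_num) (by norm_num) (by decide +kernel) s_WU1_109 s_WU1_109,
    covq 109 (by norm_num) (by norm_num) (by decide +kernel) s_WUh_109 s_WH1_109,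
    covq 109 (by norm_num) (by norm_num) (by decide +kernel) s_WHh_109 s_WHh_109⟩

lemma s_TU1_109 : ∀ r : ℤ, 0 ≤ r → r < 109 → inl [(0, 17), (19, 26), (28, 33), (37, 41), (44, 45), (55, 63), (66, 67), (73, 75), (82, 82), (91, 91)] r = true → Sd PP1 109 (VU 1) r :=
  deadA (V := V_TU1) (by norm_num) q_cls.2.1 (cell_TU1 q_cls.2.1) q_fam.2.1 (q_sym1 V_TU1 S_TU1 109 [(0, 17), (19, 26), (28, 33), (37, 41), (44, 45), (55, 63), (66, 67), (73, 75), (82, 82), (91, 91)] (by norm_num) ck_TU1 blk_TU1) k_TU1_109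

lemma s_TUh_109 : ∀ r : ℤ, 0 ≤ r → r < 109 → inl [(0, 17), (19, 24)] r = true → Sd (PPh 1) 109 (VU 1) r :=
  deadA (V := V_TUh) (by norm_num) (q_cls.2.2 1) (cell_TUh (q_cls.2.2 1)) (q_fam.2.2 1) (q_symI (PPh 1) V_TUh 109 [(0, 17), (19, 24)]) k_TUh_109

lemma s_TH1_109 : ∀ r : ℤ, 0 ≤ r → r < 109 → inl [(1, 84), (91, 91)] r = true → Sd PP1 109 (VH 1) r :=
  deadA (V := V_TH1) (by norm_num) q_cls.2.1 (cell_TH1 q_cls.2.1) q_fam.2.1 (q_symI PP1 V_TH1 109 [(1, 84), (91, 91)]) k_TH1_109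

lemma s_THh_109 : ∀ r : ℤ, 0 ≤ r → r < 109 → inl [(0, 44), (46, 46), (55, 62), (64, 64)] r = true → Sd (PPh 1) 109 (VH 1) r :=
  deadA (V := V_THh) (by norm_num) (q_cls.2.2 1) (cell_THh (q_cls.2.2 1)) (q_fam.2.2 1) (q_symI (PPh 1) V_THh 109 [(0, 44), (46, 46), (55, 62), (64, 64)]) k_THh_109

lemma pa_T_109 : PA 109 1 :=
  ⟨covq 109 (by norm_num) (by norm_num) (by decide +kernel) s_TU1_109 s_TU1_109,
    covq 109 (by norm_num) (by norm_num) (by decide +kernel) s_TUh_109 s_TH1_109,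
    covq 109 (by norm_num) (by norm_num) (by decide +kernel) s_THh_109 s_THh_109⟩

lemma s_DU1_109 : ∀ r : ℤ, 0 ≤ r → r < 109 → inl [(0, 26), (28, 33), (37, 42), (44, 44), (55, 64), (66, 66), (73, 75), (82, 82)] r = true → Sd PP1 109 (VU 2) r :=
  deadA (V := V_DU1) (by norm_num) q_cls.2.1 (cell_DU1 q_cls.2.1) q_fam.2.1 (q_sym1 V_DU1 S_DU1 109 [(0, 26), (28, 33), (37, 42), (44, 44), (55, 64), (66, 66), (73, 75), (82, 82)] (by norm_num) ck_DU1 blk_DU1) k_DU1_109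

lemma s_DUh_109 : ∀ r : ℤ, 0 ≤ r → r < 109 → inl [(0, 25), (28, 28), (55, 60)] r = true → Sd (PPh 2) 109 (VU 2) r :=
  deadA (V := V_DUh) (by norm_num) (q_cls.2.2 2) (cell_DUh (q_cls.2.2 2)) (q_fam.2.2 2) (q_symI (PPh 2) V_DUh 109 [(0, 25), (28, 28), (55, 60)]) k_DUh_109

lemma s_DH1_109 : ∀ r : ℤ, 0 ≤ r → r < 109 → inl [(1, 48), (55, 80), (82, 83)] r = true → Sd PP1 109 (VH 2) r :=
  deadA (V := V_DH1) (by norm_num) q_cls.2.1 (cell_DH1 q_cls.2.1) q_fam.2.1 (q_symI PP1 V_DH1 109 [(1, 48), (55, 80), (82, 83)]) k_DH1_109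

lemma s_DHh_109 : ∀ r : ℤ, 0 ≤ r → r < 109 → inl [(0, 42), (44, 44), (46, 46), (55, 62), (64, 64), (66, 66)] r = true → Sd (PPh 2) 109 (VH 2) r :=
  deadA (V := V_DHh) (by norm_num) (q_cls.2.2 2) (cell_DHh (q_cls.2.2 2)) (q_fam.2.2 2) (q_symI (PPh 2) V_DHh 109 [(0, 42), (44, 44), (46, 46), (55, 62), (64, 64), (66, 66)]) k_DHh_109

lemma pa_D_109 : PA 109 2 :=
  ⟨covq 109 (by norm_num) (by norm_num) (by decide +kernel) s_DU1_109 s_DU1_109,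
    covq 109 (by norm_num) (by norm_num) (by decide +kernel) s_DUh_109 s_DH1_109,
    covq 109 (by norm_num) (by norm_num) (by decide +kernel) s_DHh_109 s_DHh_109⟩

theorem dead_109 : DeadAll 109 := mkDead 109 (by norm_num) th_109 be_109 pa_W_109 pa_T_109 pa_D_109

end Pool.Agent.Lib.MP_0bc52e_nt.K
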