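import Pool.Agent.Lib.MP_0bc52e_nt.K.Uni

/-!
The certificates for the modulus 113 (MP_0bc52e_nt).
-/

namespace Pool.Agent.Lib.MP_0bc52e_nt.K

open Pool.Agent.Lib.MP_0bc52e_nt.LC Pool.Agent.Lib.MP_0bc52e_nt.T Pool.Agent.Lib.MP_0bc52e_nt.R

lemma th_113 : ∀ R ∈ Theta, ∀ u, Dd PP0 113 (R.map toP) u :=
  theta_all (P := fun V => ∀ u, Dd PP0 113 V u) (u_th4 (by norm_num))
    (u_th5 (by norm_num))
    (u_th7 (by norm_num))
    (u_th11 (by norm_num))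
    (u_th13 (by norm_num))
    (u_th17 (by norm_num))
    (u_th19 (by norm_num))
    (u_th20 (by norm_num))

lemma be_113 : ∀ R ∈ Beta, ∀ u, Dd PP0 113 (R.map toP) u :=
  beta_all (P := fun V => ∀ u, Dd PP0 113 V u) (u_b11 (by norm_num))
    (u_b12 (by norm_num))
    (u_b13 (by norm_num))
    (u_b14 (by norm_num))
    (u_b15 (by norm_num))
    (u_b21 (by norm_num))
    (u_b23 (by norm_num))
    (u_b25 (by norm_num))
    (u_b27 (by norm_num))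
    (u_b31 (by norm_num))
    (u_b35 (by norm_num))
    (u_b37 (by norm_num))
    (u_b311 (by norm_num))
    (u_bi3 (by norm_num))

lemma s_WU1_113 : ∀ r : ℤ, 0 ≤ r → r < 113 → inl [(0, 21), (23, 26), (29, 31), (33, 33), (38, 43), (46, 46), (57, 66), (68, 69), (76, 79), (81, 81), (85, 86), (91, 91)] r = true → Sd PP1 113 (VU 0) r :=
  deadA (V := V_WU1) (by norm_num) q_cls.2.1 (cell_WU1 q_cls.2.1) q_fam.2.1 (q_sym1 V_WU1 S_WU1 113 [(0, 21), (23, 26), (29, 31), (33, 33), (38, 43), (46, 46), (57, 66), (68, 69), (76, 79), (81, 81), (85, 86), (91, 91)] (by norm_num) ck_WU1 blk_WU1) k_WU1_113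

lemma s_WUh_113 : ∀ r : ℤ, 0 ≤ r → r < 113 → inl [(0, 14)] r = true → Sd (PPh 0) 113 (VU 0) r :=
  deadA (V := V_WUh) (by norm_num) (q_cls.2.2 0) (cell_WUh (q_cls.2.2 0)) (q_fam.2.2 0) (q_symI (PPh 0) V_WUh 113 [(0, 14)]) k_WUh_113

lemma s_WH1_113 : ∀ r : ℤ, 0 ≤ r → r < 113 → inl [(1, 98)] r = true → Sd PP1 113 (VH 0) r :=
  deadA (V := V_WH1) (by norm_num) q_cls.2.1 (cell_WH1 q_cls.2.1) q_fam.2.1 (q_symI PP1 V_WH1 113 [(1, 98)]) k_WH1_113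

lemma s_WHh_113 : ∀ r : ℤ, 0 ≤ r → r < 113 → inl [(0, 48), (57, 64)] r = true → Sd (PPh 0) 113 (VH 0) r :=
  deadA (V := V_WHh) (by norm_num) (q_cls.2.2 0) (cell_WHh (q_cls.2.2 0)) (q_fam.2.2 0) (q_symI (PPh 0) V_WHh 113 [(0, 48), (57, 64)]) k_WHh_113

lemma pa_W_113 : PA 113 0 :=
  ⟨covq 113 (by norm_num) (by norm_num) (by decide +kernel) s_WU1_113 s_WU1_113,
    covq 113 (by norm_num) (by norm_num) (by decide +kernel) s_WUh_113 s_WH1_113,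
    covq 113 (by norm_num) (by norm_num) (by decide +kernel) s_WHh_113 s_WHh_113⟩

lemma s_TU1_113 : ∀ r : ℤ, 0 ≤ r → r < 113 → inl [(0, 21), (23, 27), (29, 34), (38, 43), (46, 47), (57, 65), (68, 69), (76, 78), (85, 85), (91, 91)] r = true → Sd PP1 113 (VU 1) r :=
  deadA (V := V_TU1) (by norm_num) q_cls.2.1 (cell_TU1 q_cls.2.1) q_fam.2.1 (q_sym1 V_TU1 S_TU1 113 [(0, 21), (23, 27), (29, 34), (38, 43), (46, 47), (57, 65), (68, 69), (76, 78), (85, 85), (91, 91)] (by norm_num) ck_TU1 blk_TU1) k_TU1_113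

lemma s_TUh_113 : ∀ r : ℤ, 0 ≤ r → r < 113 → inl [(0, 21), (23, 25)] r = true → Sd (PPh 1) 113 (VU 1) r :=
  deadA (V := V_TUh) (by norm_num) (q_cls.2.2 1) (cell_TUh (q_cls.2.2 1)) (q_fam.2.2 1) (q_symI (PPh 1) V_TUh 113 [(0, 21), (23, 25)]) k_TUh_113

lemma s_TH1_113 : ∀ r : ℤ, 0 ≤ r → r < 113 → inl [(1, 87), (91, 91)] r = true → Sd PP1 113 (VH 1) r :=
  deadA (V := V_TH1) (by norm_num) q_cls.2.1 (cell_TH1 q_cls.2.1) q_fam.2.1 (q_symI PP1 V_TH1 113 [(1, 87), (91, 91)]) k_TH1_113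

lemma s_THh_113 : ∀ r : ℤ, 0 ≤ r → r < 113 → inl [(0, 46), (48, 48), (57, 64), (66, 66)] r = true → Sd (PPh 1) 113 (VH 1) r :=
  deadA (V := V_THh) (by norm_num) (q_cls.2.2 1) (cell_THh (q_cls.2.2 1)) (q_fam.2.2 1) (q_symI (PPh 1) V_THh 113 [(0, 46), (48, 48), (57, 64), (66, 66)]) k_THh_113

lemma pa_T_113 : PA 113 1 :=
  ⟨covq 113 (by norm_num) (by norm_num) (by decide +kernel) s_TU1_113 s_TU1_113,
    covq 113 (by norm_num) (by norm_num) (by decide +kernel) s_TUh_113 s_TH1_113,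
    covq 113 (by norm_num) (by norm_num) (by decide +kernel) s_THh_113 s_THh_113⟩

lemma s_DU1_113 : ∀ r : ℤ, 0 ≤ r → r < 113 → inl [(0, 27), (29, 34), (38, 43), (46, 46), (57, 66), (68, 69), (76, 78), (85, 85)] r = true → Sd PP1 113 (VU 2) r :=
  deadA (V := V_DU1) (by norm_num) q_cls.2.1 (cell_DU1 q_cls.2.1) q_fam.2.1 (q_sym1 V_DU1 S_DU1 113 [(0, 27), (29, 34), (38, 43), (46, 46), (57, 66), (68, 69), (76, 78), (85, 85)] (by norm_num) ck_DU1 blk_DU1) k_DU1_113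

lemma s_DUh_113 : ∀ r : ℤ, 0 ≤ r → r < 113 → inl [(0, 26), (29, 29), (38, 38), (57, 62)] r = true → Sd (PPh 2) 113 (VU 2) r :=
  deadA (V := V_DUh) (by norm_num) (q_cls.2.2 2) (cell_DUh (q_cls.2.2 2)) (q_fam.2.2 2) (q_symI (PPh 2) V_DUh 113 [(0, 26), (29, 29), (38, 38), (57, 62)]) k_DUh_113

lemma s_DH1_113 : ∀ r : ℤ, 0 ≤ r → r < 113 → inl [(1, 50), (57, 74), (76, 83), (85, 86)] r = true → Sd PP1 113 (VH 2) r :=
  deadA (V := V_DH1) (by norm_num) q_cls.2.1 (cell_DH1 q_cls.2.1) q_fam.2.1 (q_symI PP1 V_DH1 113 [(1, 50), (57, 74), (76, 83), (85, 86)]) k_DH1_113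

lemma s_DHh_113 : ∀ r : ℤ, 0 ≤ r → r < 113 → inl [(0, 42), (44, 44), (46, 46), (57, 66), (68, 68), (70, 70)] r = true → Sd (PPh 2) 113 (VH 2) r :=
  deadA (V := V_DHh) (by norm_num) (q_cls.2.2 2) (cell_DHh (q_cls.2.2 2)) (q_fam.2.2 2) (q_symI (PPh 2) V_DHh 113 [(0, 42), (44, 44), (46, 46), (57, 66), (68, 68), (70, 70)]) k_DHh_113

lemma pa_D_113 : PA 113 2 :=
  ⟨covq 113 (by norm_num) (by norm_num) (by decide +kernel) s_DU1_113 s_DU1_113,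
    covq 113 (by norm_num) (by norm_num) (by decide +kernel) s_DUh_113 s_DH1_113,
    covq 113 (by norm_num) (by norm_num) (by decide +kernel) s_DHh_113 s_DHh_113⟩

theorem dead_113 : DeadAll 113 := mkDead 113 (by norm_num) th_113 be_113 pa_W_113 pa_T_113 pa_D_113

end Pool.Agent.Lib.MP_0bc52e_nt.K
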