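import Pool.Agent.Lib.MP_0bc52e_nt.K.Uni

/-!
The certificates for the modulus 127 (MP_0bc52e_nt).
-/

namespace Pool.Agent.Lib.MP_0bc52e_nt.K

open Pool.Agent.Lib.MP_0bc52e_nt.LC Pool.Agent.Lib.MP_0bc52e_nt.T Pool.Agent.Lib.MP_0bc52e_nt.R

lemma th_127 : ∀ R ∈ Theta, ∀ u, Dd PP0 127 (R.map toP) u :=
  theta_all (P := fun V => ∀ u, Dd PP0 127 V u) (u_th4 (by norm_num))
    (u_th5 (by norm_num))
    (u_th7 (by norm_num))
    (u_th11 (by norm_num))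
    (u_th13 (by norm_num))
    (u_th17 (by norm_num))
    (u_th19 (by norm_num))
    (u_th20 (by norm_num))

lemma be_127 : ∀ R ∈ Beta, ∀ u, Dd PP0 127 (R.map toP) u :=
  beta_all (P := fun V => ∀ u, Dd PP0 127 V u) (u_b11 (by norm_num))
    (u_b12 (by norm_num))
    (u_b13 (by norm_num))
    (u_b14 (by norm_num))
    (u_b15 (by norm_num))
    (u_b21 (by norm_num))
    (u_b23 (by norm_num))
    (u_b25 (by norm_num))
    (u_b27 (by norm_num))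
    (u_b31 (by norm_num))
    (u_b35 (by norm_num))
    (u_b37 (by norm_num))
    (u_b311 (by norm_num))
    (u_bi3 (by norm_num))

lemma s_WU1_127 : ∀ r : ℤ, 0 ≤ r → r < 127 → inl [(0, 20), (22, 24), (26, 30), (32, 35), (37, 37), (43, 48), (51, 52), (64, 74), (77, 78), (85, 89), (91, 91), (96, 96), (102, 102), (106, 106)] r = true → Sd PP1 127 (VU 0) r :=
  deadA (V := V_WU1) (by norm_num) q_cls.2.1 (cell_WU1 q_cls.2.1) q_fam.2.1 (q_sym1 V_WU1 S_WU1 127 [(0, 20), (22, 24), (26, 30), (32, 35), (37, 37), (43, 48), (51, 52), (64, 74), (77, 78), (85, 89), (91, 91), (96, 96), (102, 102), (106, 106)] (by norm_num) ck_WU1 blk_WU1) k_WU1_127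

lemma s_WUh_127 : ∀ r : ℤ, 0 ≤ r → r < 127 → inl [(0, 16)] r = true → Sd (PPh 0) 127 (VU 0) r :=
  deadA (V := V_WUh) (by norm_num) (q_cls.2.2 0) (cell_WUh (q_cls.2.2 0)) (q_fam.2.2 0) (q_symI (PPh 0) V_WUh 127 [(0, 16)]) k_WUh_127

lemma s_WH1_127 : ∀ r : ℤ, 0 ≤ r → r < 127 → inl [(1, 110)] r = true → Sd PP1 127 (VH 0) r :=
  deadA (V := V_WH1) (by norm_num) q_cls.2.1 (cell_WH1 q_cls.2.1) q_fam.2.1 (q_symI PP1 V_WH1 127 [(1, 110)]) k_WH1_127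

lemma s_WHh_127 : ∀ r : ℤ, 0 ≤ r → r < 127 → inl [(0, 54), (64, 72)] r = true → Sd (PPh 0) 127 (VH 0) r :=
  deadA (V := V_WHh) (by norm_num) (q_cls.2.2 0) (cell_WHh (q_cls.2.2 0)) (q_fam.2.2 0) (q_symI (PPh 0) V_WHh 127 [(0, 54), (64, 72)]) k_WHh_127

lemma pa_W_127 : PA 127 0 :=
  ⟨covq 127 (by norm_num) (by norm_num) (by decide +kernel) s_WU1_127 s_WU1_127,
    covq 127 (by norm_num) (by norm_num) (by decide +kernel) s_WUh_127 s_WH1_127,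
    covq 127 (by norm_num) (by norm_num) (by decide +kernel) s_WHh_127 s_WHh_127⟩

lemma s_TU1_127 : ∀ r : ℤ, 0 ≤ r → r < 127 → inl [(0, 20), (22, 24), (26, 30), (32, 38), (43, 48), (51, 52), (64, 74), (77, 78), (85, 88), (96, 96), (102, 102), (106, 106)] r = true → Sd PP1 127 (VU 1) r :=
  deadA (V := V_TU1) (by norm_num) q_cls.2.1 (cell_TU1 q_cls.2.1) q_fam.2.1 (q_sym1 V_TU1 S_TU1 127 [(0, 20), (22, 24), (26, 30), (32, 38), (43, 48), (51, 52), (64, 74), (77, 78), (85, 88), (96, 96), (102, 102), (106, 106)] (by norm_num) ck_TU1 blk_TU1) k_TU1_127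

lemma s_TUh_127 : ∀ r : ℤ, 0 ≤ r → r < 127 → inl [(0, 20), (22, 24), (26, 28)] r = true → Sd (PPh 1) 127 (VU 1) r :=
  deadA (V := V_TUh) (by norm_num) (q_cls.2.2 1) (cell_TUh (q_cls.2.2 1)) (q_fam.2.2 1) (q_symI (PPh 1) V_TUh 127 [(0, 20), (22, 24), (26, 28)]) k_TUh_127

lemma s_TH1_127 : ∀ r : ℤ, 0 ≤ r → r < 127 → inl [(1, 98), (102, 102), (106, 106)] r = true → Sd PP1 127 (VH 1) r :=
  deadA (V := V_TH1) (by norm_num) q_cls.2.1 (cell_TH1 q_cls.2.1) q_fam.2.1 (q_symI PP1 V_TH1 127 [(1, 98), (102, 102), (106, 106)]) k_TH1_127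

lemma s_THh_127 : ∀ r : ℤ, 0 ≤ r → r < 127 → inl [(0, 50), (52, 52), (54, 54), (64, 72), (74, 74), (76, 76)] r = true → Sd (PPh 1) 127 (VH 1) r :=
  deadA (V := V_THh) (by norm_num) (q_cls.2.2 1) (cell_THh (q_cls.2.2 1)) (q_fam.2.2 1) (q_symI (PPh 1) V_THh 127 [(0, 50), (52, 52), (54, 54), (64, 72), (74, 74), (76, 76)]) k_THh_127

lemma pa_T_127 : PA 127 1 :=
  ⟨covq 127 (by norm_num) (by norm_num) (by decide +kernel) s_TU1_127 s_TU1_127,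
    covq 127 (by norm_num) (by norm_num) (by decide +kernel) s_TUh_127 s_TH1_127,
    covq 127 (by norm_num) (by norm_num) (by decide +kernel) s_THh_127 s_THh_127⟩

lemma s_DU1_127 : ∀ r : ℤ, 0 ≤ r → r < 127 → inl [(0, 38), (43, 49), (51, 51), (64, 75), (77, 77), (85, 88)] r = true → Sd PP1 127 (VU 2) r :=
  deadA (V := V_DU1) (by norm_num) q_cls.2.1 (cell_DU1 q_cls.2.1) q_fam.2.1 (q_sym1 V_DU1 S_DU1 127 [(0, 38), (43, 49), (51, 51), (64, 75), (77, 77), (85, 88)] (by norm_num) ck_DU1 blk_DU1) k_DU1_127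

lemma s_DUh_127 : ∀ r : ℤ, 0 ≤ r → r < 127 → inl [(0, 29), (32, 32), (64, 68)] r = true → Sd (PPh 2) 127 (VU 2) r :=
  deadA (V := V_DUh) (by norm_num) (q_cls.2.2 2) (cell_DUh (q_cls.2.2 2)) (q_fam.2.2 2) (q_symI (PPh 2) V_DUh 127 [(0, 29), (32, 32), (64, 68)]) k_DUh_127

lemma s_DH1_127 : ∀ r : ℤ, 0 ≤ r → r < 127 → inl [(1, 58), (64, 94), (96, 97)] r = true → Sd PP1 127 (VH 2) r :=
  deadA (V := V_DH1) (by norm_num) q_cls.2.1 (cell_DH1 q_cls.2.1) q_fam.2.1 (q_symI PP1 V_DH1 127 [(1, 58), (64, 94), (96, 97)]) k_DH1_127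

lemma s_DHh_127 : ∀ r : ℤ, 0 ≤ r → r < 127 → inl [(0, 48), (50, 50), (52, 52), (64, 74), (76, 76), (78, 78)] r = true → Sd (PPh 2) 127 (VH 2) r :=
  deadA (V := V_DHh) (by norm_num) (q_cls.2.2 2) (cell_DHh (q_cls.2.2 2)) (q_fam.2.2 2) (q_symI (PPh 2) V_DHh 127 [(0, 48), (50, 50), (52, 52), (64, 74), (76, 76), (78, 78)]) k_DHh_127

lemma pa_D_127 : PA 127 2 :=
  ⟨covq 127 (by norm_num) (by norm_num) (by decide +kernel) s_DU1_127 s_DU1_127,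
    covq 127 (by norm_num) (by norm_num) (by decide +kernel) s_DUh_127 s_DH1_127,
    covq 127 (by norm_num) (by norm_num) (by decide +kernel) s_DHh_127 s_DHh_127⟩

theorem dead_127 : DeadAll 127 := mkDead 127 (by norm_num) th_127 be_127 pa_W_127 pa_T_127 pa_D_127

end Pool.Agent.Lib.MP_0bc52e_nt.K
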