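import Pool.Agent.Lib.MP_0bc52e_nt.K.Uni

/-!
The certificates for the modulus 131 (MP_0bc52e_nt).
-/

namespace Pool.Agent.Lib.MP_0bc52e_nt.K

open Pool.Agent.Lib.MP_0bc52e_nt.LC Pool.Agent.Lib.MP_0bc52e_nt.T Pool.Agent.Lib.MP_0bc52e_nt.R

lemma th_131 : ∀ R ∈ Theta, ∀ u, Dd PP0 131 (R.map toP) u :=
  theta_all (P := fun V => ∀ u, Dd PP0 131 V u) (u_th4 (by norm_num))
    (u_th5 (by norm_num))
    (u_th7 (by norm_num))
    (u_th11 (by norm_num))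
    (u_th13 (by norm_num))
    (u_th17 (by norm_num))
    (u_th19 (by norm_num))
    (u_th20 (by norm_num))

lemma be_131 : ∀ R ∈ Beta, ∀ u, Dd PP0 131 (R.map toP) u :=
  beta_all (P := fun V => ∀ u, Dd PP0 131 V u) (u_b11 (by norm_num))
    (u_b12 (by norm_num))
    (u_b13 (by norm_num))
    (u_b14 (by norm_num))
    (u_b15 (by norm_num))
    (u_b21 (by norm_num))
    (u_b23 (by norm_num))
    (u_b25 (by norm_num))
    (u_b27 (by norm_num))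
    (u_b31 (by norm_num))
    (u_b35 (by norm_num))
    (u_b37 (by norm_num))
    (u_b311 (by norm_num))
    (u_bi3 (by norm_num))

lemma s_WU1_131 : ∀ r : ℤ, 0 ≤ r → r < 131 → inl [(0, 25), (27, 31), (33, 36), (38, 38), (44, 50), (53, 54), (66, 76), (79, 80), (88, 92), (94, 94), (99, 99), (105, 105)] r = true → Sd PP1 131 (VU 0) r :=
  deadA (V := V_WU1) (by norm_num) q_cls.2.1 (cell_WU1 q_cls.2.1) q_fam.2.1 (q_sym1 V_WU1 S_WU1 131 [(0, 25), (27, 31), (33, 36), (38, 38), (44, 50), (53, 54), (66, 76), (79, 80), (88, 92), (94, 94), (99, 99), (105, 105)] (by norm_num) ck_WU1 blk_WU1) k_WU1_131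

lemma s_WUh_131 : ∀ r : ℤ, 0 ≤ r → r < 131 → inl [(0, 17)] r = true → Sd (PPh 0) 131 (VU 0) r :=
  deadA (V := V_WUh) (by norm_num) (q_cls.2.2 0) (cell_WUh (q_cls.2.2 0)) (q_fam.2.2 0) (q_symI (PPh 0) V_WUh 131 [(0, 17)]) k_WUh_131

lemma s_WH1_131 : ∀ r : ℤ, 0 ≤ r → r < 131 → inl [(1, 113)] r = true → Sd PP1 131 (VH 0) r :=
  deadA (V := V_WH1) (by norm_num) q_cls.2.1 (cell_WH1 q_cls.2.1) q_fam.2.1 (q_symI PP1 V_WH1 131 [(1, 113)]) k_WH1_131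

lemma s_WHh_131 : ∀ r : ℤ, 0 ≤ r → r < 131 → inl [(0, 55), (57, 57), (66, 73), (75, 75)] r = true → Sd (PPh 0) 131 (VH 0) r :=
  deadA (V := V_WHh) (by norm_num) (q_cls.2.2 0) (cell_WHh (q_cls.2.2 0)) (q_fam.2.2 0) (q_symI (PPh 0) V_WHh 131 [(0, 55), (57, 57), (66, 73), (75, 75)]) k_WHh_131

lemma pa_W_131 : PA 131 0 :=
  ⟨covq 131 (by norm_num) (by norm_num) (by decide +kernel) s_WU1_131 s_WU1_131,
    covq 131 (by norm_num) (by norm_num) (by decide +kernel) s_WUh_131 s_WH1_131,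
    covq 131 (by norm_num) (by norm_num) (by decide +kernel) s_WHh_131 s_WHh_131⟩

lemma s_TU1_131 : ∀ r : ℤ, 0 ≤ r → r < 131 → inl [(0, 25), (27, 31), (33, 39), (44, 50), (53, 54), (66, 76), (79, 80), (88, 91), (99, 99), (105, 105)] r = true → Sd PP1 131 (VU 1) r :=
  deadA (V := V_TU1) (by norm_num) q_cls.2.1 (cell_TU1 q_cls.2.1) q_fam.2.1 (q_sym1 V_TU1 S_TU1 131 [(0, 25), (27, 31), (33, 39), (44, 50), (53, 54), (66, 76), (79, 80), (88, 91), (99, 99), (105, 105)] (by norm_num) ck_TU1 blk_TU1) k_TU1_131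

lemma s_TUh_131 : ∀ r : ℤ, 0 ≤ r → r < 131 → inl [(0, 25), (27, 29)] r = true → Sd (PPh 1) 131 (VU 1) r :=
  deadA (V := V_TUh) (by norm_num) (q_cls.2.2 1) (cell_TUh (q_cls.2.2 1)) (q_fam.2.2 1) (q_symI (PPh 1) V_TUh 131 [(0, 25), (27, 29)]) k_TUh_131

lemma s_TH1_131 : ∀ r : ℤ, 0 ≤ r → r < 131 → inl [(1, 101), (105, 105)] r = true → Sd PP1 131 (VH 1) r :=
  deadA (V := V_TH1) (by norm_num) q_cls.2.1 (cell_TH1 q_cls.2.1) q_fam.2.1 (q_symI PP1 V_TH1 131 [(1, 101), (105, 105)]) k_TH1_131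

lemma s_THh_131 : ∀ r : ℤ, 0 ≤ r → r < 131 → inl [(0, 54), (56, 56), (66, 74), (76, 76)] r = true → Sd (PPh 1) 131 (VH 1) r :=
  deadA (V := V_THh) (by norm_num) (q_cls.2.2 1) (cell_THh (q_cls.2.2 1)) (q_fam.2.2 1) (q_symI (PPh 1) V_THh 131 [(0, 54), (56, 56), (66, 74), (76, 76)]) k_THh_131

lemma pa_T_131 : PA 131 1 :=
  ⟨covq 131 (by norm_num) (by norm_num) (by decide +kernel) s_TU1_131 s_TU1_131,
    covq 131 (by norm_num) (by norm_num) (by decide +kernel) s_TUh_131 s_TH1_131,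
    covq 131 (by norm_num) (by norm_num) (by decide +kernel) s_THh_131 s_THh_131⟩

lemma s_DU1_131 : ∀ r : ℤ, 0 ≤ r → r < 131 → inl [(0, 39), (44, 50), (53, 53), (66, 77), (79, 80), (88, 91)] r = true → Sd PP1 131 (VU 2) r :=
  deadA (V := V_DU1) (by norm_num) q_cls.2.1 (cell_DU1 q_cls.2.1) q_fam.2.1 (q_sym1 V_DU1 S_DU1 131 [(0, 39), (44, 50), (53, 53), (66, 77), (79, 80), (88, 91)] (by norm_num) ck_DU1 blk_DU1) k_DU1_131

lemma s_DUh_131 : ∀ r : ℤ, 0 ≤ r → r < 131 → inl [(0, 30), (33, 33), (44, 44), (66, 72)] r = true → Sd (PPh 2) 131 (VU 2) r :=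
  deadA (V := V_DUh) (by norm_num) (q_cls.2.2 2) (cell_DUh (q_cls.2.2 2)) (q_fam.2.2 2) (q_symI (PPh 2) V_DUh 131 [(0, 30), (33, 33), (44, 44), (66, 72)]) k_DUh_131

lemma s_DH1_131 : ∀ r : ℤ, 0 ≤ r → r < 131 → inl [(1, 58), (66, 86), (88, 97), (99, 100)] r = true → Sd PP1 131 (VH 2) r :=
  deadA (V := V_DH1) (by norm_num) q_cls.2.1 (cell_DH1 q_cls.2.1) q_fam.2.1 (q_symI PP1 V_DH1 131 [(1, 58), (66, 86), (88, 97), (99, 100)]) k_DH1_131

lemma s_DHh_131 : ∀ r : ℤ, 0 ≤ r → r < 131 → inl [(0, 50), (52, 52), (54, 54), (66, 76), (78, 78), (80, 80)] r = true → Sd (PPh 2) 131 (VH 2) r :=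
  deadA (V := V_DHh) (by norm_num) (q_cls.2.2 2) (cell_DHh (q_cls.2.2 2)) (q_fam.2.2 2) (q_symI (PPh 2) V_DHh 131 [(0, 50), (52, 52), (54, 54), (66, 76), (78, 78), (80, 80)]) k_DHh_131

lemma pa_D_131 : PA 131 2 :=
  ⟨covq 131 (by norm_num) (by norm_num) (by decide +kernel) s_DU1_131 s_DU1_131,
    covq 131 (by norm_num) (by norm_num) (by decide +kernel) s_DUh_131 s_DH1_131,
    covq 131 (by norm_num) (by norm_num) (by decide +kernel) s_DHh_131 s_DHh_131⟩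

theorem dead_131 : DeadAll 131 := mkDead 131 (by norm_num) th_131 be_131 pa_W_131 pa_T_131 pa_D_131

end Pool.Agent.Lib.MP_0bc52e_nt.K
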