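import Pool.Agent.Lib.MP_0bc52e_nt.K.Uni

/-!
The certificates for the modulus 137 (MP_0bc52e_nt).
-/

namespace Pool.Agent.Lib.MP_0bc52e_nt.K

open Pool.Agent.Lib.MP_0bc52e_nt.LC Pool.Agent.Lib.MP_0bc52e_nt.T Pool.Agent.Lib.MP_0bc52e_nt.R

lemma th_137 : ∀ R ∈ Theta, ∀ u, Dd PP0 137 (R.map toP) u :=
  theta_all (P := fun V => ∀ u, Dd PP0 137 V u) (u_th4 (by norm_num))
    (u_th5 (by norm_num))
    (u_th7 (by norm_num))
    (u_th11 (by norm_num))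
    (u_th13 (by norm_num))
    (u_th17 (by norm_num))
    (u_th19 (by norm_num))
    (u_th20 (by norm_num))

lemma be_137 : ∀ R ∈ Beta, ∀ u, Dd PP0 137 (R.map toP) u :=
  beta_all (P := fun V => ∀ u, Dd PP0 137 V u) (u_b11 (by norm_num))
    (u_b12 (by norm_num))
    (u_b13 (by norm_num))
    (u_b14 (by norm_num))
    (u_b15 (by norm_num))
    (u_b21 (by norm_num))
    (u_b23 (by norm_num))
    (u_b25 (by norm_num))
    (u_b27 (by norm_num))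
    (u_b31 (by norm_num))
    (u_b35 (by norm_num))
    (u_b37 (by norm_num))
    (u_b311 (by norm_num))
    (u_bi3 (by norm_num))

lemma s_WU1_137 : ∀ r : ℤ, 0 ≤ r → r < 137 → inl [(0, 26), (28, 32), (35, 38), (40, 40), (46, 52), (55, 56), (59, 59), (69, 77), (79, 80), (83, 84), (92, 96), (98, 98), (103, 104), (110, 110)] r = true → Sd PP1 137 (VU 0) r :=
  deadA (V := V_WU1) (by norm_num) q_cls.2.1 (cell_WU1 q_cls.2.1) q_fam.2.1 (q_sym1 V_WU1 S_WU1 137 [(0, 26), (28, 32), (35, 38), (40, 40), (46, 52), (55, 56), (59, 59), (69, 77), (79, 80), (83, 84), (92, 96), (98, 98), (103, 104), (110, 110)] (by norm_num) ck_WU1 blk_WU1) k_WU1_137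

lemma s_WUh_137 : ∀ r : ℤ, 0 ≤ r → r < 137 → inl [(0, 17)] r = true → Sd (PPh 0) 137 (VU 0) r :=
  deadA (V := V_WUh) (by norm_num) (q_cls.2.2 0) (cell_WUh (q_cls.2.2 0)) (q_fam.2.2 0) (q_symI (PPh 0) V_WUh 137 [(0, 17)]) k_WUh_137

lemma s_WH1_137 : ∀ r : ℤ, 0 ≤ r → r < 137 → inl [(1, 119)] r = true → Sd PP1 137 (VH 0) r :=
  deadA (V := V_WH1) (by norm_num) q_cls.2.1 (cell_WH1 q_cls.2.1) q_fam.2.1 (q_symI PP1 V_WH1 137 [(1, 119)]) k_WH1_137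

lemma s_WHh_137 : ∀ r : ℤ, 0 ≤ r → r < 137 → inl [(0, 57), (59, 59), (69, 77), (79, 79)] r = true → Sd (PPh 0) 137 (VH 0) r :=
  deadA (V := V_WHh) (by norm_num) (q_cls.2.2 0) (cell_WHh (q_cls.2.2 0)) (q_fam.2.2 0) (q_symI (PPh 0) V_WHh 137 [(0, 57), (59, 59), (69, 77), (79, 79)]) k_WHh_137

lemma pa_W_137 : PA 137 0 :=
  ⟨covq 137 (by norm_num) (by norm_num) (by decide +kernel) s_WU1_137 s_WU1_137,
    covq 137 (by norm_num) (by norm_num) (by decide +kernel) s_WUh_137 s_WH1_137,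
    covq 137 (by norm_num) (by norm_num) (by decide +kernel) s_WHh_137 s_WHh_137⟩

lemma s_TU1_137 : ∀ r : ℤ, 0 ≤ r → r < 137 → inl [(0, 26), (28, 33), (35, 41), (46, 52), (55, 56), (69, 80), (83, 84), (92, 95), (103, 103), (110, 110)] r = true → Sd PP1 137 (VU 1) r :=
  deadA (V := V_TU1) (by norm_num) q_cls.2.1 (cell_TU1 q_cls.2.1) q_fam.2.1 (q_sym1 V_TU1 S_TU1 137 [(0, 26), (28, 33), (35, 41), (46, 52), (55, 56), (69, 80), (83, 84), (92, 95), (103, 103), (110, 110)] (by norm_num) ck_TU1 blk_TU1) k_TU1_137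

lemma s_TUh_137 : ∀ r : ℤ, 0 ≤ r → r < 137 → inl [(0, 26), (28, 30)] r = true → Sd (PPh 1) 137 (VU 1) r :=
  deadA (V := V_TUh) (by norm_num) (q_cls.2.2 1) (cell_TUh (q_cls.2.2 1)) (q_fam.2.2 1) (q_symI (PPh 1) V_TUh 137 [(0, 26), (28, 30)]) k_TUh_137

lemma s_TH1_137 : ∀ r : ℤ, 0 ≤ r → r < 137 → inl [(1, 106), (110, 110)] r = true → Sd PP1 137 (VH 1) r :=
  deadA (V := V_TH1) (by norm_num) q_cls.2.1 (cell_TH1 q_cls.2.1) q_fam.2.1 (q_symI PP1 V_TH1 137 [(1, 106), (110, 110)]) k_TH1_137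

lemma s_THh_137 : ∀ r : ℤ, 0 ≤ r → r < 137 → inl [(0, 54), (56, 56), (58, 58), (69, 78), (80, 80), (82, 82)] r = true → Sd (PPh 1) 137 (VH 1) r :=
  deadA (V := V_THh) (by norm_num) (q_cls.2.2 1) (cell_THh (q_cls.2.2 1)) (q_fam.2.2 1) (q_symI (PPh 1) V_THh 137 [(0, 54), (56, 56), (58, 58), (69, 78), (80, 80), (82, 82)]) k_THh_137

lemma pa_T_137 : PA 137 1 :=
  ⟨covq 137 (by norm_num) (by norm_num) (by decide +kernel) s_TU1_137 s_TU1_137,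
    covq 137 (by norm_num) (by norm_num) (by decide +kernel) s_TUh_137 s_TH1_137,
    covq 137 (by norm_num) (by norm_num) (by decide +kernel) s_THh_137 s_THh_137⟩

lemma s_DU1_137 : ∀ r : ℤ, 0 ≤ r → r < 137 → inl [(0, 33), (35, 41), (46, 52), (55, 56), (69, 80), (83, 84), (92, 95), (103, 103)] r = true → Sd PP1 137 (VU 2) r :=
  deadA (V := V_DU1) (by norm_num) q_cls.2.1 (cell_DU1 q_cls.2.1) q_fam.2.1 (q_sym1 V_DU1 S_DU1 137 [(0, 33), (35, 41), (46, 52), (55, 56), (69, 80), (83, 84), (92, 95), (103, 103)] (by norm_num) ck_DU1 blk_DU1) k_DU1_137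

lemma s_DUh_137 : ∀ r : ℤ, 0 ≤ r → r < 137 → inl [(0, 31), (35, 35), (46, 46), (69, 74)] r = true → Sd (PPh 2) 137 (VU 2) r :=
  deadA (V := V_DUh) (by norm_num) (q_cls.2.2 2) (cell_DUh (q_cls.2.2 2)) (q_fam.2.2 2) (q_symI (PPh 2) V_DUh 137 [(0, 31), (35, 35), (46, 46), (69, 74)]) k_DUh_137

lemma s_DH1_137 : ∀ r : ℤ, 0 ≤ r → r < 137 → inl [(1, 62), (69, 90), (92, 101), (103, 105)] r = true → Sd PP1 137 (VH 2) r :=
  deadA (V := V_DH1) (by norm_num) q_cls.2.1 (cell_DH1 q_cls.2.1) q_fam.2.1 (q_symI PP1 V_DH1 137 [(1, 62), (69, 90), (92, 101), (103, 105)]) k_DH1_137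

lemma s_DHh_137 : ∀ r : ℤ, 0 ≤ r → r < 137 → inl [(0, 52), (54, 54), (56, 56), (69, 80), (82, 82), (84, 84)] r = true → Sd (PPh 2) 137 (VH 2) r :=
  deadA (V := V_DHh) (by norm_num) (q_cls.2.2 2) (cell_DHh (q_cls.2.2 2)) (q_fam.2.2 2) (q_symI (PPh 2) V_DHh 137 [(0, 52), (54, 54), (56, 56), (69, 80), (82, 82), (84, 84)]) k_DHh_137

lemma pa_D_137 : PA 137 2 :=
  ⟨covq 137 (by norm_num) (by norm_num) (by decide +kernel) s_DU1_137 s_DU1_137,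
    covq 137 (by norm_num) (by norm_num) (by decide +kernel) s_DUh_137 s_DH1_137,
    covq 137 (by norm_num) (by norm_num) (by decide +kernel) s_DHh_137 s_DHh_137⟩

theorem dead_137 : DeadAll 137 := mkDead 137 (by norm_num) th_137 be_137 pa_W_137 pa_T_137 pa_D_137

end Pool.Agent.Lib.MP_0bc52e_nt.K
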