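import Pool.Agent.Lib.MP_0bc52e_nt.K.Uni

/-!
The certificates for the modulus 139 (MP_0bc52e_nt).
-/

namespace Pool.Agent.Lib.MP_0bc52e_nt.K

open Pool.Agent.Lib.MP_0bc52e_nt.LC Pool.Agent.Lib.MP_0bc52e_nt.T Pool.Agent.Lib.MP_0bc52e_nt.R

lemma th_139 : ∀ R ∈ Theta, ∀ u, Dd PP0 139 (R.map toP) u :=
  theta_all (P := fun V => ∀ u, Dd PP0 139 V u) (u_th4 (by norm_num))
    (u_th5 (by norm_num))
    (u_th7 (by norm_num))
    (u_th11 (by norm_num))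
    (u_th13 (by norm_num))
    (u_th17 (by norm_num))
    (u_th19 (by norm_num))
    (u_th20 (by norm_num))

lemma be_139 : ∀ R ∈ Beta, ∀ u, Dd PP0 139 (R.map toP) u :=
  beta_all (P := fun V => ∀ u, Dd PP0 139 V u) (u_b11 (by norm_num))
    (u_b12 (by norm_num))
    (u_b13 (by norm_num))
    (u_b14 (by norm_num))
    (u_b15 (by norm_num))
    (u_b21 (by norm_num))
    (u_b23 (by norm_num))
    (u_b25 (by norm_num))
    (u_b27 (by norm_num))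
    (u_b31 (by norm_num))
    (u_b35 (by norm_num))
    (u_b37 (by norm_num))
    (u_b311 (by norm_num))
    (u_bi3 (by norm_num))

lemma s_WU1_139 : ∀ r : ℤ, 0 ≤ r → r < 139 → inl [(0, 22), (24, 26), (28, 33), (35, 41), (47, 53), (56, 57), (70, 81), (84, 85), (93, 97), (105, 105), (112, 112), (116, 116)] r = true → Sd PP1 139 (VU 0) r :=
  deadA (V := V_WU1) (by norm_num) q_cls.2.1 (cell_WU1 q_cls.2.1) q_fam.2.1 (q_sym1 V_WU1 S_WU1 139 [(0, 22), (24, 26), (28, 33), (35, 41), (47, 53), (56, 57), (70, 81), (84, 85), (93, 97), (105, 105), (112, 112), (116, 116)] (by norm_num) ck_WU1 blk_WU1) k_WU1_139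

lemma s_WUh_139 : ∀ r : ℤ, 0 ≤ r → r < 139 → inl [(0, 18)] r = true → Sd (PPh 0) 139 (VU 0) r :=
  deadA (V := V_WUh) (by norm_num) (q_cls.2.2 0) (cell_WUh (q_cls.2.2 0)) (q_fam.2.2 0) (q_symI (PPh 0) V_WUh 139 [(0, 18)]) k_WUh_139

lemma s_WH1_139 : ∀ r : ℤ, 0 ≤ r → r < 139 → inl [(1, 120)] r = true → Sd PP1 139 (VH 0) r :=
  deadA (V := V_WH1) (by norm_num) q_cls.2.1 (cell_WH1 q_cls.2.1) q_fam.2.1 (q_symI PP1 V_WH1 139 [(1, 120)]) k_WH1_139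

lemma s_WHh_139 : ∀ r : ℤ, 0 ≤ r → r < 139 → inl [(0, 58), (60, 60), (70, 78), (80, 80)] r = true → Sd (PPh 0) 139 (VH 0) r :=
  deadA (V := V_WHh) (by norm_num) (q_cls.2.2 0) (cell_WHh (q_cls.2.2 0)) (q_fam.2.2 0) (q_symI (PPh 0) V_WHh 139 [(0, 58), (60, 60), (70, 78), (80, 80)]) k_WHh_139

lemma pa_W_139 : PA 139 0 :=
  ⟨covq 139 (by norm_num) (by norm_num) (by decide +kernel) s_WU1_139 s_WU1_139,
    covq 139 (by norm_num) (by norm_num) (by decide +kernel) s_WUh_139 s_WH1_139,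
    covq 139 (by norm_num) (by norm_num) (by decide +kernel) s_WHh_139 s_WHh_139⟩

lemma s_TU1_139 : ∀ r : ℤ, 0 ≤ r → r < 139 → inl [(0, 22), (24, 33), (35, 41), (47, 53), (56, 57), (70, 81), (84, 85), (93, 97), (105, 105), (116, 116)] r = true → Sd PP1 139 (VU 1) r :=
  deadA (V := V_TU1) (by norm_num) q_cls.2.1 (cell_TU1 q_cls.2.1) q_fam.2.1 (q_sym1 V_TU1 S_TU1 139 [(0, 22), (24, 33), (35, 41), (47, 53), (56, 57), (70, 81), (84, 85), (93, 97), (105, 105), (116, 116)] (by norm_num) ck_TU1 blk_TU1) k_TU1_139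

lemma s_TUh_139 : ∀ r : ℤ, 0 ≤ r → r < 139 → inl [(0, 22), (24, 30), (35, 35)] r = true → Sd (PPh 1) 139 (VU 1) r :=
  deadA (V := V_TUh) (by norm_num) (q_cls.2.2 1) (cell_TUh (q_cls.2.2 1)) (q_fam.2.2 1) (q_symI (PPh 1) V_TUh 139 [(0, 22), (24, 30), (35, 35)]) k_TUh_139

lemma s_TH1_139 : ∀ r : ℤ, 0 ≤ r → r < 139 → inl [(1, 103), (105, 108), (116, 116)] r = true → Sd PP1 139 (VH 1) r :=
  deadA (V := V_TH1) (by norm_num) q_cls.2.1 (cell_TH1 q_cls.2.1) q_fam.2.1 (q_symI PP1 V_TH1 139 [(1, 103), (105, 108), (116, 116)]) k_TH1_139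

lemma s_THh_139 : ∀ r : ℤ, 0 ≤ r → r < 139 → inl [(0, 56), (58, 58), (60, 60), (70, 78), (80, 80), (82, 82)] r = true → Sd (PPh 1) 139 (VH 1) r :=
  deadA (V := V_THh) (by norm_num) (q_cls.2.2 1) (cell_THh (q_cls.2.2 1)) (q_fam.2.2 1) (q_symI (PPh 1) V_THh 139 [(0, 56), (58, 58), (60, 60), (70, 78), (80, 80), (82, 82)]) k_THh_139

lemma pa_T_139 : PA 139 1 :=
  ⟨covq 139 (by norm_num) (by norm_num) (by decide +kernel) s_TU1_139 s_TU1_139,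
    covq 139 (by norm_num) (by norm_num) (by decide +kernel) s_TUh_139 s_TH1_139,
    covq 139 (by norm_num) (by norm_num) (by decide +kernel) s_THh_139 s_THh_139⟩

lemma s_DU1_139 : ∀ r : ℤ, 0 ≤ r → r < 139 → inl [(0, 42), (47, 53), (56, 56), (70, 82), (84, 85), (93, 96)] r = true → Sd PP1 139 (VU 2) r :=
  deadA (V := V_DU1) (by norm_num) q_cls.2.1 (cell_DU1 q_cls.2.1) q_fam.2.1 (q_sym1 V_DU1 S_DU1 139 [(0, 42), (47, 53), (56, 56), (70, 82), (84, 85), (93, 96)] (by norm_num) ck_DU1 blk_DU1) k_DU1_139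

lemma s_DUh_139 : ∀ r : ℤ, 0 ≤ r → r < 139 → inl [(0, 31), (35, 35), (70, 76)] r = true → Sd (PPh 2) 139 (VU 2) r :=
  deadA (V := V_DUh) (by norm_num) (q_cls.2.2 2) (cell_DUh (q_cls.2.2 2)) (q_fam.2.2 2) (q_symI (PPh 2) V_DUh 139 [(0, 31), (35, 35), (70, 76)]) k_DUh_139

lemma s_DH1_139 : ∀ r : ℤ, 0 ≤ r → r < 139 → inl [(1, 62), (70, 103), (105, 107)] r = true → Sd PP1 139 (VH 2) r :=
  deadA (V := V_DH1) (by norm_num) q_cls.2.1 (cell_DH1 q_cls.2.1) q_fam.2.1 (q_symI PP1 V_DH1 139 [(1, 62), (70, 103), (105, 107)]) k_DH1_139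

lemma s_DHh_139 : ∀ r : ℤ, 0 ≤ r → r < 139 → inl [(0, 52), (54, 54), (56, 56), (70, 82), (84, 84), (86, 86)] r = true → Sd (PPh 2) 139 (VH 2) r :=
  deadA (V := V_DHh) (by norm_num) (q_cls.2.2 2) (cell_DHh (q_cls.2.2 2)) (q_fam.2.2 2) (q_symI (PPh 2) V_DHh 139 [(0, 52), (54, 54), (56, 56), (70, 82), (84, 84), (86, 86)]) k_DHh_139

lemma pa_D_139 : PA 139 2 :=
  ⟨covq 139 (by norm_num) (by norm_num) (by decide +kernel) s_DU1_139 s_DU1_139,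
    covq 139 (by norm_num) (by norm_num) (by decide +kernel) s_DUh_139 s_DH1_139,
    covq 139 (by norm_num) (by norm_num) (by decide +kernel) s_DHh_139 s_DHh_139⟩

theorem dead_139 : DeadAll 139 := mkDead 139 (by norm_num) th_139 be_139 pa_W_139 pa_T_139 pa_D_139

end Pool.Agent.Lib.MP_0bc52e_nt.K
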