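import Pool.Agent.Lib.MP_0bc52e_nt.K.Uni

/-!
The certificates for the modulus 149 (MP_0bc52e_nt).
-/

namespace Pool.Agent.Lib.MP_0bc52e_nt.K

open Pool.Agent.Lib.MP_0bc52e_nt.LC Pool.Agent.Lib.MP_0bc52e_nt.T Pool.Agent.Lib.MP_0bc52e_nt.R

lemma th_149 : ∀ R ∈ Theta, ∀ u, Dd PP0 149 (R.map toP) u :=
  theta_all (P := fun V => ∀ u, Dd PP0 149 V u) (u_th4 (by norm_num))
    (u_th5 (by norm_num))
    (u_th7 (by norm_num))
    (u_th11 (by norm_num))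
    (u_th13 (by norm_num))
    (u_th17 (by norm_num))
    (u_th19 (by norm_num))
    (u_th20 (by norm_num))

lemma be_149 : ∀ R ∈ Beta, ∀ u, Dd PP0 149 (R.map toP) u :=
  beta_all (P := fun V => ∀ u, Dd PP0 149 V u) (u_b11 (by norm_num))
    (u_b12 (by norm_num))
    (u_b13 (by norm_num))
    (u_b14 (by norm_num))
    (u_b15 (by norm_num))
    (u_b21 (by norm_num))
    (u_b23 (by norm_num))
    (u_b25 (by norm_num))
    (u_b27 (by norm_num))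
    (u_b31 (by norm_num))
    (u_b35 (by norm_num))
    (u_b37 (by norm_num))
    (u_b311 (by norm_num))
    (u_bi3 (by norm_num))

lemma s_WU1_149 : ∀ r : ℤ, 0 ≤ r → r < 149 → inl [(0, 28), (30, 35), (38, 44), (50, 57), (60, 61), (64, 64), (75, 84), (86, 87), (90, 91), (100, 104), (112, 113), (120, 120)] r = true → Sd PP1 149 (VU 0) r :=
  deadA (V := V_WU1) (by norm_num) q_cls.2.1 (cell_WU1 q_cls.2.1) q_fam.2.1 (q_sym1 V_WU1 S_WU1 149 [(0, 28), (30, 35), (38, 44), (50, 57), (60, 61), (64, 64), (75, 84), (86, 87), (90, 91), (100, 104), (112, 113), (120, 120)] (by norm_num) ck_WU1 blk_WU1) k_WU1_149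

lemma s_WUh_149 : ∀ r : ℤ, 0 ≤ r → r < 149 → inl [(0, 20)] r = true → Sd (PPh 0) 149 (VU 0) r :=
  deadA (V := V_WUh) (by norm_num) (q_cls.2.2 0) (cell_WUh (q_cls.2.2 0)) (q_fam.2.2 0) (q_symI (PPh 0) V_WUh 149 [(0, 20)]) k_WUh_149

lemma s_WH1_149 : ∀ r : ℤ, 0 ≤ r → r < 149 → inl [(1, 128)] r = true → Sd PP1 149 (VH 0) r :=
  deadA (V := V_WH1) (by norm_num) q_cls.2.1 (cell_WH1 q_cls.2.1) q_fam.2.1 (q_symI PP1 V_WH1 149 [(1, 128)]) k_WH1_149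

lemma s_WHh_149 : ∀ r : ℤ, 0 ≤ r → r < 149 → inl [(0, 63), (65, 65), (75, 83), (85, 85)] r = true → Sd (PPh 0) 149 (VH 0) r :=
  deadA (V := V_WHh) (by norm_num) (q_cls.2.2 0) (cell_WHh (q_cls.2.2 0)) (q_fam.2.2 0) (q_symI (PPh 0) V_WHh 149 [(0, 63), (65, 65), (75, 83), (85, 85)]) k_WHh_149

lemma pa_W_149 : PA 149 0 :=
  ⟨covq 149 (by norm_num) (by norm_num) (by decide +kernel) s_WU1_149 s_WU1_149,
    covq 149 (by norm_num) (by norm_num) (by decide +kernel) s_WUh_149 s_WH1_149,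
    covq 149 (by norm_num) (by norm_num) (by decide +kernel) s_WHh_149 s_WHh_149⟩

lemma s_TU1_149 : ∀ r : ℤ, 0 ≤ r → r < 149 → inl [(0, 36), (38, 45), (50, 56), (60, 62), (75, 86), (90, 92), (100, 103), (112, 112)] r = true → Sd PP1 149 (VU 1) r :=
  deadA (V := V_TU1) (by norm_num) q_cls.2.1 (cell_TU1 q_cls.2.1) q_fam.2.1 (q_sym1 V_TU1 S_TU1 149 [(0, 36), (38, 45), (50, 56), (60, 62), (75, 86), (90, 92), (100, 103), (112, 112)] (by norm_num) ck_TU1 blk_TU1) k_TU1_149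

lemma s_TUh_149 : ∀ r : ℤ, 0 ≤ r → r < 149 → inl [(0, 33)] r = true → Sd (PPh 1) 149 (VU 1) r :=
  deadA (V := V_TUh) (by norm_num) (q_cls.2.2 1) (cell_TUh (q_cls.2.2 1)) (q_fam.2.2 1) (q_symI (PPh 1) V_TUh 149 [(0, 33)]) k_TUh_149

lemma s_TH1_149 : ∀ r : ℤ, 0 ≤ r → r < 149 → inl [(1, 115)] r = true → Sd PP1 149 (VH 1) r :=
  deadA (V := V_TH1) (by norm_num) q_cls.2.1 (cell_TH1 q_cls.2.1) q_fam.2.1 (q_symI PP1 V_TH1 149 [(1, 115)]) k_TH1_149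

lemma s_THh_149 : ∀ r : ℤ, 0 ≤ r → r < 149 → inl [(0, 60), (62, 62), (64, 64), (75, 84), (86, 86), (88, 88)] r = true → Sd (PPh 1) 149 (VH 1) r :=
  deadA (V := V_THh) (by norm_num) (q_cls.2.2 1) (cell_THh (q_cls.2.2 1)) (q_fam.2.2 1) (q_symI (PPh 1) V_THh 149 [(0, 60), (62, 62), (64, 64), (75, 84), (86, 86), (88, 88)]) k_THh_149

lemma pa_T_149 : PA 149 1 :=
  ⟨covq 149 (by norm_num) (by norm_num) (by decide +kernel) s_TU1_149 s_TU1_149,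
    covq 149 (by norm_num) (by norm_num) (by decide +kernel) s_TUh_149 s_TH1_149,
    covq 149 (by norm_num) (by norm_num) (by decide +kernel) s_THh_149 s_THh_149⟩

lemma s_DU1_149 : ∀ r : ℤ, 0 ≤ r → r < 149 → inl [(0, 36), (38, 45), (50, 57), (60, 60), (75, 88), (90, 91), (100, 103), (112, 112)] r = true → Sd PP1 149 (VU 2) r :=
  deadA (V := V_DU1) (by norm_num) q_cls.2.1 (cell_DU1 q_cls.2.1) q_fam.2.1 (q_sym1 V_DU1 S_DU1 149 [(0, 36), (38, 45), (50, 57), (60, 60), (75, 88), (90, 91), (100, 103), (112, 112)] (by norm_num) ck_DU1 blk_DU1) k_DU1_149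

lemma s_DUh_149 : ∀ r : ℤ, 0 ≤ r → r < 149 → inl [(0, 34), (38, 38), (50, 50), (75, 82)] r = true → Sd (PPh 2) 149 (VU 2) r :=
  deadA (V := V_DUh) (by norm_num) (q_cls.2.2 2) (cell_DUh (q_cls.2.2 2)) (q_fam.2.2 2) (q_symI (PPh 2) V_DUh 149 [(0, 34), (38, 38), (50, 50), (75, 82)]) k_DUh_149

lemma s_DH1_149 : ∀ r : ℤ, 0 ≤ r → r < 149 → inl [(1, 66), (75, 98), (100, 110), (112, 114)] r = true → Sd PP1 149 (VH 2) r :=
  deadA (V := V_DH1) (by norm_num) q_cls.2.1 (cell_DH1 q_cls.2.1) q_fam.2.1 (q_symI PP1 V_DH1 149 [(1, 66), (75, 98), (100, 110), (112, 114)]) k_DH1_149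

lemma s_DHh_149 : ∀ r : ℤ, 0 ≤ r → r < 149 → inl [(0, 56), (58, 58), (60, 60), (62, 62), (75, 86), (88, 88), (90, 90), (92, 92)] r = true → Sd (PPh 2) 149 (VH 2) r :=
  deadA (V := V_DHh) (by norm_num) (q_cls.2.2 2) (cell_DHh (q_cls.2.2 2)) (q_fam.2.2 2) (q_symI (PPh 2) V_DHh 149 [(0, 56), (58, 58), (60, 60), (62, 62), (75, 86), (88, 88), (90, 90), (92, 92)]) k_DHh_149

lemma pa_D_149 : PA 149 2 :=
  ⟨covq 149 (by norm_num) (by norm_num) (by decide +kernel) s_DU1_149 s_DU1_149,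
    covq 149 (by norm_num) (by norm_num) (by decide +kernel) s_DUh_149 s_DH1_149,
    covq 149 (by norm_num) (by norm_num) (by decide +kernel) s_DHh_149 s_DHh_149⟩

theorem dead_149 : DeadAll 149 := mkDead 149 (by norm_num) th_149 be_149 pa_W_149 pa_T_149 pa_D_149

end Pool.Agent.Lib.MP_0bc52e_nt.K
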