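import Pool.Agent.Lib.MP_0bc52e_nt.K.Uni

/-!
The certificates for the modulus 151 (MP_0bc52e_nt).
-/

namespace Pool.Agent.Lib.MP_0bc52e_nt.K

open Pool.Agent.Lib.MP_0bc52e_nt.LC Pool.Agent.Lib.MP_0bc52e_nt.T Pool.Agent.Lib.MP_0bc52e_nt.R

lemma th_151 : ∀ R ∈ Theta, ∀ u, Dd PP0 151 (R.map toP) u :=
  theta_all (P := fun V => ∀ u, Dd PP0 151 V u) (u_th4 (by norm_num))
    (u_th5 (by norm_num))
    (u_th7 (by norm_num))
    (u_th11 (by norm_num))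
    (u_th13 (by norm_num))
    (u_th17 (by norm_num))
    (u_th19 (by norm_num))
    (u_th20 (by norm_num))

lemma be_151 : ∀ R ∈ Beta, ∀ u, Dd PP0 151 (R.map toP) u :=
  beta_all (P := fun V => ∀ u, Dd PP0 151 V u) (u_b11 (by norm_num))
    (u_b12 (by norm_num))
    (u_b13 (by norm_num))
    (u_b14 (by norm_num))
    (u_b15 (by norm_num))
    (u_b21 (by norm_num))
    (u_b23 (by norm_num))
    (u_b25 (by norm_num))
    (u_b27 (by norm_num))
    (u_b31 (by norm_num))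
    (u_b35 (by norm_num))
    (u_b37 (by norm_num))
    (u_b311 (by norm_num))
    (u_bi3 (by norm_num))

lemma s_WU1_151 : ∀ r : ℤ, 0 ≤ r → r < 151 → inl [(0, 24), (26, 29), (31, 36), (38, 42), (44, 44), (51, 57), (61, 62), (65, 65), (76, 85), (87, 88), (91, 93), (101, 106), (108, 108), (114, 114), (121, 121), (126, 126)] r = true → Sd PP1 151 (VU 0) r :=
  deadA (V := V_WU1) (by norm_num) q_cls.2.1 (cell_WU1 q_cls.2.1) q_fam.2.1 (q_sym1 V_WU1 S_WU1 151 [(0, 24), (26, 29), (31, 36), (38, 42), (44, 44), (51, 57), (61, 62), (65, 65), (76, 85), (87, 88), (91, 93), (101, 106), (108, 108), (114, 114), (121, 121), (126, 126)] (by norm_num) ck_WU1 blk_WU1) k_WU1_151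

lemma s_WUh_151 : ∀ r : ℤ, 0 ≤ r → r < 151 → inl [(0, 19)] r = true → Sd (PPh 0) 151 (VU 0) r :=
  deadA (V := V_WUh) (by norm_num) (q_cls.2.2 0) (cell_WUh (q_cls.2.2 0)) (q_fam.2.2 0) (q_symI (PPh 0) V_WUh 151 [(0, 19)]) k_WUh_151

lemma s_WH1_151 : ∀ r : ℤ, 0 ≤ r → r < 151 → inl [(1, 131)] r = true → Sd PP1 151 (VH 0) r :=
  deadA (V := V_WH1) (by norm_num) q_cls.2.1 (cell_WH1 q_cls.2.1) q_fam.2.1 (q_symI PP1 V_WH1 151 [(1, 131)]) k_WH1_151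

lemma s_WHh_151 : ∀ r : ℤ, 0 ≤ r → r < 151 → inl [(0, 63), (65, 66), (76, 84), (87, 87)] r = true → Sd (PPh 0) 151 (VH 0) r :=
  deadA (V := V_WHh) (by norm_num) (q_cls.2.2 0) (cell_WHh (q_cls.2.2 0)) (q_fam.2.2 0) (q_symI (PPh 0) V_WHh 151 [(0, 63), (65, 66), (76, 84), (87, 87)]) k_WHh_151

lemma pa_W_151 : PA 151 0 :=
  ⟨covq 151 (by norm_num) (by norm_num) (by decide +kernel) s_WU1_151 s_WU1_151,
    covq 151 (by norm_num) (by norm_num) (by decide +kernel) s_WUh_151 s_WH1_151,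
    covq 151 (by norm_num) (by norm_num) (by decide +kernel) s_WHh_151 s_WHh_151⟩

lemma s_TU1_151 : ∀ r : ℤ, 0 ≤ r → r < 151 → inl [(0, 24), (26, 29), (31, 36), (38, 45), (51, 57), (61, 62), (76, 88), (91, 93), (101, 105), (114, 114), (121, 121), (126, 126)] r = true → Sd PP1 151 (VU 1) r :=
  deadA (V := V_TU1) (by norm_num) q_cls.2.1 (cell_TU1 q_cls.2.1) q_fam.2.1 (q_sym1 V_TU1 S_TU1 151 [(0, 24), (26, 29), (31, 36), (38, 45), (51, 57), (61, 62), (76, 88), (91, 93), (101, 105), (114, 114), (121, 121), (126, 126)] (by norm_num) ck_TU1 blk_TU1) k_TU1_151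

lemma s_TUh_151 : ∀ r : ℤ, 0 ≤ r → r < 151 → inl [(0, 24), (26, 29), (31, 34)] r = true → Sd (PPh 1) 151 (VU 1) r :=
  deadA (V := V_TUh) (by norm_num) (q_cls.2.2 1) (cell_TUh (q_cls.2.2 1)) (q_fam.2.2 1) (q_symI (PPh 1) V_TUh 151 [(0, 24), (26, 29), (31, 34)]) k_TUh_151

lemma s_TH1_151 : ∀ r : ℤ, 0 ≤ r → r < 151 → inl [(1, 116), (121, 121), (126, 126)] r = true → Sd PP1 151 (VH 1) r :=
  deadA (V := V_TH1) (by norm_num) q_cls.2.1 (cell_TH1 q_cls.2.1) q_fam.2.1 (q_symI PP1 V_TH1 151 [(1, 116), (121, 121), (126, 126)]) k_TH1_151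

lemma s_THh_151 : ∀ r : ℤ, 0 ≤ r → r < 151 → inl [(0, 60), (62, 62), (64, 64), (66, 66), (76, 84), (86, 86), (88, 88), (90, 90)] r = true → Sd (PPh 1) 151 (VH 1) r :=
  deadA (V := V_THh) (by norm_num) (q_cls.2.2 1) (cell_THh (q_cls.2.2 1)) (q_fam.2.2 1) (q_symI (PPh 1) V_THh 151 [(0, 60), (62, 62), (64, 64), (66, 66), (76, 84), (86, 86), (88, 88), (90, 90)]) k_THh_151

lemma pa_T_151 : PA 151 1 :=
  ⟨covq 151 (by norm_num) (by norm_num) (by decide +kernel) s_TU1_151 s_TU1_151,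
    covq 151 (by norm_num) (by norm_num) (by decide +kernel) s_TUh_151 s_TH1_151,
    covq 151 (by norm_num) (by norm_num) (by decide +kernel) s_THh_151 s_THh_151⟩

lemma s_DU1_151 : ∀ r : ℤ, 0 ≤ r → r < 151 → inl [(0, 45), (51, 58), (61, 61), (76, 89), (91, 92), (101, 105)] r = true → Sd PP1 151 (VU 2) r :=
  deadA (V := V_DU1) (by norm_num) q_cls.2.1 (cell_DU1 q_cls.2.1) q_fam.2.1 (q_sym1 V_DU1 S_DU1 151 [(0, 45), (51, 58), (61, 61), (76, 89), (91, 92), (101, 105)] (by norm_num) ck_DU1 blk_DU1) k_DU1_151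

lemma s_DUh_151 : ∀ r : ℤ, 0 ≤ r → r < 151 → inl [(0, 34), (38, 38), (76, 82), (84, 84)] r = true → Sd (PPh 2) 151 (VU 2) r :=
  deadA (V := V_DUh) (by norm_num) (q_cls.2.2 2) (cell_DUh (q_cls.2.2 2)) (q_fam.2.2 2) (q_symI (PPh 2) V_DUh 151 [(0, 34), (38, 38), (76, 82), (84, 84)]) k_DUh_151

lemma s_DH1_151 : ∀ r : ℤ, 0 ≤ r → r < 151 → inl [(1, 66), (68, 68), (76, 112), (114, 116)] r = true → Sd PP1 151 (VH 2) r :=
  deadA (V := V_DH1) (by norm_num) q_cls.2.1 (cell_DH1 q_cls.2.1) q_fam.2.1 (q_symI PP1 V_DH1 151 [(1, 66), (68, 68), (76, 112), (114, 116)]) k_DH1_151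

lemma s_DHh_151 : ∀ r : ℤ, 0 ≤ r → r < 151 → inl [(0, 58), (60, 60), (62, 62), (76, 88), (90, 90), (92, 92)] r = true → Sd (PPh 2) 151 (VH 2) r :=
  deadA (V := V_DHh) (by norm_num) (q_cls.2.2 2) (cell_DHh (q_cls.2.2 2)) (q_fam.2.2 2) (q_symI (PPh 2) V_DHh 151 [(0, 58), (60, 60), (62, 62), (76, 88), (90, 90), (92, 92)]) k_DHh_151

lemma pa_D_151 : PA 151 2 :=
  ⟨covq 151 (by norm_num) (by norm_num) (by decide +kernel) s_DU1_151 s_DU1_151,
    covq 151 (by norm_num) (by norm_num) (by decide +kernel) s_DUh_151 s_DH1_151,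
    covq 151 (by norm_num) (by norm_num) (by decide +kernel) s_DHh_151 s_DHh_151⟩

theorem dead_151 : DeadAll 151 := mkDead 151 (by norm_num) th_151 be_151 pa_W_151 pa_T_151 pa_D_151

end Pool.Agent.Lib.MP_0bc52e_nt.K
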