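import Pool.Agent.Lib.MP_0bc52e_nt.K.Uni

/-!
The certificates for the modulus 157 (MP_0bc52e_nt).
-/

namespace Pool.Agent.Lib.MP_0bc52e_nt.K

open Pool.Agent.Lib.MP_0bc52e_nt.LC Pool.Agent.Lib.MP_0bc52e_nt.T Pool.Agent.Lib.MP_0bc52e_nt.R

lemma th_157 : ∀ R ∈ Theta, ∀ u, Dd PP0 157 (R.map toP) u :=
  theta_all (P := fun V => ∀ u, Dd PP0 157 V u) (u_th4 (by norm_num))
    (u_th5 (by norm_num))
    (u_th7 (by norm_num))
    (u_th11 (by norm_num))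
    (u_th13 (by norm_num))
    (u_th17 (by norm_num))
    (u_th19 (by norm_num))
    (u_th20 (by norm_num))

lemma be_157 : ∀ R ∈ Beta, ∀ u, Dd PP0 157 (R.map toP) u :=
  beta_all (P := fun V => ∀ u, Dd PP0 157 V u) (u_b11 (by norm_num))
    (u_b12 (by norm_num))
    (u_b13 (by norm_num))
    (u_b14 (by norm_num))
    (u_b15 (by norm_num))
    (u_b21 (by norm_num))
    (u_b23 (by norm_num))
    (u_b25 (by norm_num))
    (u_b27 (by norm_num))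
    (u_b31 (by norm_num))
    (u_b35 (by norm_num))
    (u_b37 (by norm_num))
    (u_b311 (by norm_num))
    (u_bi3 (by norm_num))

lemma s_WU1_157 : ∀ r : ℤ, 0 ≤ r → r < 157 → inl [(0, 25), (27, 30), (32, 37), (40, 46), (53, 60), (63, 65), (79, 91), (95, 96), (105, 110), (118, 119), (126, 126), (131, 131)] r = true → Sd PP1 157 (VU 0) r :=
  deadA (V := V_WU1) (by norm_num) q_cls.2.1 (cell_WU1 q_cls.2.1) q_fam.2.1 (q_sym1 V_WU1 S_WU1 157 [(0, 25), (27, 30), (32, 37), (40, 46), (53, 60), (63, 65), (79, 91), (95, 96), (105, 110), (118, 119), (126, 126), (131, 131)] (by norm_num) ck_WU1 blk_WU1) k_WU1_157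

lemma s_WUh_157 : ∀ r : ℤ, 0 ≤ r → r < 157 → inl [(0, 20)] r = true → Sd (PPh 0) 157 (VU 0) r :=
  deadA (V := V_WUh) (by norm_num) (q_cls.2.2 0) (cell_WUh (q_cls.2.2 0)) (q_fam.2.2 0) (q_symI (PPh 0) V_WUh 157 [(0, 20)]) k_WUh_157

lemma s_WH1_157 : ∀ r : ℤ, 0 ≤ r → r < 157 → inl [(1, 136)] r = true → Sd PP1 157 (VH 0) r :=
  deadA (V := V_WH1) (by norm_num) q_cls.2.1 (cell_WH1 q_cls.2.1) q_fam.2.1 (q_symI PP1 V_WH1 157 [(1, 136)]) k_WH1_157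

lemma s_WHh_157 : ∀ r : ℤ, 0 ≤ r → r < 157 → inl [(0, 69), (79, 87)] r = true → Sd (PPh 0) 157 (VH 0) r :=
  deadA (V := V_WHh) (by norm_num) (q_cls.2.2 0) (cell_WHh (q_cls.2.2 0)) (q_fam.2.2 0) (q_symI (PPh 0) V_WHh 157 [(0, 69), (79, 87)]) k_WHh_157

lemma pa_W_157 : PA 157 0 :=
  ⟨covq 157 (by norm_num) (by norm_num) (by decide +kernel) s_WU1_157 s_WU1_157,
    covq 157 (by norm_num) (by norm_num) (by decide +kernel) s_WUh_157 s_WH1_157,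
    covq 157 (by norm_num) (by norm_num) (by decide +kernel) s_WHh_157 s_WHh_157⟩

lemma s_TU1_157 : ∀ r : ℤ, 0 ≤ r → r < 157 → inl [(0, 25), (27, 30), (32, 38), (40, 47), (53, 60), (63, 65), (79, 91), (95, 96), (105, 109), (118, 118), (126, 126), (131, 131)] r = true → Sd PP1 157 (VU 1) r :=
  deadA (V := V_TU1) (by norm_num) q_cls.2.1 (cell_TU1 q_cls.2.1) q_fam.2.1 (q_sym1 V_TU1 S_TU1 157 [(0, 25), (27, 30), (32, 38), (40, 47), (53, 60), (63, 65), (79, 91), (95, 96), (105, 109), (118, 118), (126, 126), (131, 131)] (by norm_num) ck_TU1 blk_TU1) k_TU1_157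

lemma s_TUh_157 : ∀ r : ℤ, 0 ≤ r → r < 157 → inl [(0, 25), (27, 30), (32, 35)] r = true → Sd (PPh 1) 157 (VU 1) r :=
  deadA (V := V_TUh) (by norm_num) (q_cls.2.2 1) (cell_TUh (q_cls.2.2 1)) (q_fam.2.2 1) (q_symI (PPh 1) V_TUh 157 [(0, 25), (27, 30), (32, 35)]) k_TUh_157

lemma s_TH1_157 : ∀ r : ℤ, 0 ≤ r → r < 157 → inl [(1, 121), (126, 126), (131, 131)] r = true → Sd PP1 157 (VH 1) r :=
  deadA (V := V_TH1) (by norm_num) q_cls.2.1 (cell_TH1 q_cls.2.1) q_fam.2.1 (q_symI PP1 V_TH1 157 [(1, 121), (126, 126), (131, 131)]) k_TH1_157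

lemma s_THh_157 : ∀ r : ℤ, 0 ≤ r → r < 157 → inl [(0, 62), (64, 64), (66, 66), (68, 68), (79, 88), (90, 90), (92, 92), (94, 94)] r = true → Sd (PPh 1) 157 (VH 1) r :=
  deadA (V := V_THh) (by norm_num) (q_cls.2.2 1) (cell_THh (q_cls.2.2 1)) (q_fam.2.2 1) (q_symI (PPh 1) V_THh 157 [(0, 62), (64, 64), (66, 66), (68, 68), (79, 88), (90, 90), (92, 92), (94, 94)]) k_THh_157

lemma pa_T_157 : PA 157 1 :=
  ⟨covq 157 (by norm_num) (by norm_num) (by decide +kernel) s_TU1_157 s_TU1_157,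
    covq 157 (by norm_num) (by norm_num) (by decide +kernel) s_TUh_157 s_TH1_157,
    covq 157 (by norm_num) (by norm_num) (by decide +kernel) s_THh_157 s_THh_157⟩

lemma s_DU1_157 : ∀ r : ℤ, 0 ≤ r → r < 157 → inl [(0, 38), (40, 47), (53, 60), (63, 64), (79, 92), (95, 96), (105, 109), (118, 118)] r = true → Sd PP1 157 (VU 2) r :=
  deadA (V := V_DU1) (by norm_num) q_cls.2.1 (cell_DU1 q_cls.2.1) q_fam.2.1 (q_sym1 V_DU1 S_DU1 157 [(0, 38), (40, 47), (53, 60), (63, 64), (79, 92), (95, 96), (105, 109), (118, 118)] (by norm_num) ck_DU1 blk_DU1) k_DU1_157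

lemma s_DUh_157 : ∀ r : ℤ, 0 ≤ r → r < 157 → inl [(0, 36), (40, 40), (79, 86)] r = true → Sd (PPh 2) 157 (VU 2) r :=
  deadA (V := V_DUh) (by norm_num) (q_cls.2.2 2) (cell_DUh (q_cls.2.2 2)) (q_fam.2.2 2) (q_symI (PPh 2) V_DUh 157 [(0, 36), (40, 40), (79, 86)]) k_DUh_157

lemma s_DH1_157 : ∀ r : ℤ, 0 ≤ r → r < 157 → inl [(1, 70), (79, 116), (118, 120)] r = true → Sd PP1 157 (VH 2) r :=
  deadA (V := V_DH1) (by norm_num) q_cls.2.1 (cell_DH1 q_cls.2.1) q_fam.2.1 (q_symI PP1 V_DH1 157 [(1, 70), (79, 116), (118, 120)]) k_DH1_157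

lemma s_DHh_157 : ∀ r : ℤ, 0 ≤ r → r < 157 → inl [(0, 60), (62, 62), (64, 64), (66, 66), (79, 90), (92, 92), (94, 94), (96, 96)] r = true → Sd (PPh 2) 157 (VH 2) r :=
  deadA (V := V_DHh) (by norm_num) (q_cls.2.2 2) (cell_DHh (q_cls.2.2 2)) (q_fam.2.2 2) (q_symI (PPh 2) V_DHh 157 [(0, 60), (62, 62), (64, 64), (66, 66), (79, 90), (92, 92), (94, 94), (96, 96)]) k_DHh_157

lemma pa_D_157 : PA 157 2 :=
  ⟨covq 157 (by norm_num) (by norm_num) (by decide +kernel) s_DU1_157 s_DU1_157,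
    covq 157 (by norm_num) (by norm_num) (by decide +kernel) s_DUh_157 s_DH1_157,
    covq 157 (by norm_num) (by norm_num) (by decide +kernel) s_DHh_157 s_DHh_157⟩

theorem dead_157 : DeadAll 157 := mkDead 157 (by norm_num) th_157 be_157 pa_W_157 pa_T_157 pa_D_157

end Pool.Agent.Lib.MP_0bc52e_nt.K
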