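import Pool.Agent.Lib.MP_0bc52e_nt.K.Uni

/-!
The certificates for the modulus 23 (MP_0bc52e_nt).
-/

namespace Pool.Agent.Lib.MP_0bc52e_nt.K

open Pool.Agent.Lib.MP_0bc52e_nt.LC Pool.Agent.Lib.MP_0bc52e_nt.T Pool.Agent.Lib.MP_0bc52e_nt.R

lemma th_23 : ∀ R ∈ Theta, ∀ u, Dd PP0 23 (R.map toP) u :=
  theta_all (P := fun V => ∀ u, Dd PP0 23 V u) (dead0 (by norm_num) (by norm_num) (cell_th4 q_cls.1) ck_th4 k_th4_23)
    (dead0 (by norm_num) (by norm_num) (cell_th5 q_cls.1) ck_th5 k_th5_23)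
    (dead0 (by norm_num) (by norm_num) (cell_th7 q_cls.1) ck_th7 k_th7_23)
    (dead0 (by norm_num) (by norm_num) (cell_th11 q_cls.1) ck_th11 k_th11_23)
    (dead0 (by norm_num) (by norm_num) (cell_th13 q_cls.1) ck_th13 k_th13_23)
    (dead0 (by norm_num) (by norm_num) (cell_th17 q_cls.1) ck_th17 k_th17_23)
    (dead0 (by norm_num) (by norm_num) (cell_th19 q_cls.1) ck_th19 k_th19_23)
    (dead0 (by norm_num) (by norm_num) (cell_th20 q_cls.1) ck_th20 k_th20_23)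

lemma be_23 : ∀ R ∈ Beta, ∀ u, Dd PP0 23 (R.map toP) u :=
  beta_all (P := fun V => ∀ u, Dd PP0 23 V u) (dead0 (by norm_num) (by norm_num) (cell_b11 q_cls.1) ck_b11 k_b11_23)
    (dead0 (by norm_num) (by norm_num) (cell_b12 q_cls.1) ck_b12 k_b12_23)
    (dead0 (by norm_num) (by norm_num) (cell_b13 q_cls.1) ck_b13 k_b13_23)
    (dead0 (by norm_num) (by norm_num) (cell_b14 q_cls.1) ck_b14 k_b14_23)
    (dead0 (by norm_num) (by norm_num) (cell_b15 q_cls.1) ck_b15 k_b15_23)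
    (dead0 (by norm_num) (by norm_num) (cell_b21 q_cls.1) ck_b21 k_b21_23)
    (dead0 (by norm_num) (by norm_num) (cell_b23 q_cls.1) ck_b23 k_b23_23)
    (dead0 (by norm_num) (by norm_num) (cell_b25 q_cls.1) ck_b25 k_b25_23)
    (dead0 (by norm_num) (by norm_num) (cell_b27 q_cls.1) ck_b27 k_b27_23)
    (dead0 (by norm_num) (by norm_num) (cell_b31 q_cls.1) ck_b31 k_b31_23)
    (dead0 (by norm_num) (by norm_num) (cell_b35 q_cls.1) ck_b35 k_b35_23)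
    (dead0 (by norm_num) (by norm_num) (cell_b37 q_cls.1) ck_b37 k_b37_23)
    (dead0 (by norm_num) (by norm_num) (cell_b311 q_cls.1) ck_b311 k_b311_23)
    (dead0 (by norm_num) (by norm_num) (cell_bi3 q_cls.1) ck_bi3 k_bi3_23)

lemma s_WU1_23 : ∀ r : ℤ, 0 ≤ r → r < 23 → inl [(0, 6), (8, 8), (12, 14), (16, 16)] r = true → Sd PP1 23 (VU 0) r :=
  deadA (V := V_WU1) (by norm_num) q_cls.2.1 (cell_WU1 q_cls.2.1) q_fam.2.1 (q_sym1 V_WU1 S_WU1 23 [(0, 6), (8, 8), (12, 14), (16, 16)] (by norm_num) ck_WU1 blk_WU1) k_WU1_23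

lemma s_WUh_23 : ∀ r : ℤ, 0 ≤ r → r < 23 → inl [(0, 2)] r = true → Sd (PPh 0) 23 (VU 0) r :=
  deadA (V := V_WUh) (by norm_num) (q_cls.2.2 0) (cell_WUh (q_cls.2.2 0)) (q_fam.2.2 0) (q_symI (PPh 0) V_WUh 23 [(0, 2)]) k_WUh_23

lemma s_WH1_23 : ∀ r : ℤ, 0 ≤ r → r < 23 → inl [(1, 20)] r = true → Sd PP1 23 (VH 0) r :=
  deadA (V := V_WH1) (by norm_num) q_cls.2.1 (cell_WH1 q_cls.2.1) q_fam.2.1 (q_symI PP1 V_WH1 23 [(1, 20)]) k_WH1_23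

lemma s_WHh_23 : ∀ r : ℤ, 0 ≤ r → r < 23 → inl [(0, 9), (12, 13)] r = true → Sd (PPh 0) 23 (VH 0) r :=
  deadA (V := V_WHh) (by norm_num) (q_cls.2.2 0) (cell_WHh (q_cls.2.2 0)) (q_fam.2.2 0) (q_symI (PPh 0) V_WHh 23 [(0, 9), (12, 13)]) k_WHh_23

lemma pa_W_23 : PA 23 0 :=
  ⟨covq 23 (by norm_num) (by norm_num) (by decide +kernel) s_WU1_23 s_WU1_23,
    covq 23 (by norm_num) (by norm_num) (by decide +kernel) s_WUh_23 s_WH1_23,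
    covq 23 (by norm_num) (by norm_num) (by decide +kernel) s_WHh_23 s_WHh_23⟩

lemma s_TU1_23 : ∀ r : ℤ, 0 ≤ r → r < 23 → inl [(0, 6), (8, 8), (12, 14), (16, 16)] r = true → Sd PP1 23 (VU 1) r :=
  deadA (V := V_TU1) (by norm_num) q_cls.2.1 (cell_TU1 q_cls.2.1) q_fam.2.1 (q_sym1 V_TU1 S_TU1 23 [(0, 6), (8, 8), (12, 14), (16, 16)] (by norm_num) ck_TU1 blk_TU1) k_TU1_23

lemma s_TUh_23 : ∀ r : ℤ, 0 ≤ r → r < 23 → inl [(0, 5)] r = true → Sd (PPh 1) 23 (VU 1) r :=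
  deadA (V := V_TUh) (by norm_num) (q_cls.2.2 1) (cell_TUh (q_cls.2.2 1)) (q_fam.2.2 1) (q_symI (PPh 1) V_TUh 23 [(0, 5)]) k_TUh_23

lemma s_TH1_23 : ∀ r : ℤ, 0 ≤ r → r < 23 → inl [(1, 17)] r = true → Sd PP1 23 (VH 1) r :=
  deadA (V := V_TH1) (by norm_num) q_cls.2.1 (cell_TH1 q_cls.2.1) q_fam.2.1 (q_symI PP1 V_TH1 23 [(1, 17)]) k_TH1_23

lemma s_THh_23 : ∀ r : ℤ, 0 ≤ r → r < 23 → inl [(0, 9), (12, 13)] r = true → Sd (PPh 1) 23 (VH 1) r :=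
  deadA (V := V_THh) (by norm_num) (q_cls.2.2 1) (cell_THh (q_cls.2.2 1)) (q_fam.2.2 1) (q_symI (PPh 1) V_THh 23 [(0, 9), (12, 13)]) k_THh_23

lemma pa_T_23 : PA 23 1 :=
  ⟨covq 23 (by norm_num) (by norm_num) (by decide +kernel) s_TU1_23 s_TU1_23,
    covq 23 (by norm_num) (by norm_num) (by decide +kernel) s_TUh_23 s_TH1_23,
    covq 23 (by norm_num) (by norm_num) (by decide +kernel) s_THh_23 s_THh_23⟩

lemma s_DU1_23 : ∀ r : ℤ, 0 ≤ r → r < 23 → inl [(0, 6), (8, 8), (12, 14), (16, 16)] r = true → Sd PP1 23 (VU 2) r :=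
  deadA (V := V_DU1) (by norm_num) q_cls.2.1 (cell_DU1 q_cls.2.1) q_fam.2.1 (q_sym1 V_DU1 S_DU1 23 [(0, 6), (8, 8), (12, 14), (16, 16)] (by norm_num) ck_DU1 blk_DU1) k_DU1_23

lemma s_DUh_23 : ∀ r : ℤ, 0 ≤ r → r < 23 → inl [(0, 5), (12, 12)] r = true → Sd (PPh 2) 23 (VU 2) r :=
  deadA (V := V_DUh) (by norm_num) (q_cls.2.2 2) (cell_DUh (q_cls.2.2 2)) (q_fam.2.2 2) (q_symI (PPh 2) V_DUh 23 [(0, 5), (12, 12)]) k_DUh_23

lemma s_DH1_23 : ∀ r : ℤ, 0 ≤ r → r < 23 → inl [(1, 10), (12, 17)] r = true → Sd PP1 23 (VH 2) r :=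
  deadA (V := V_DH1) (by norm_num) q_cls.2.1 (cell_DH1 q_cls.2.1) q_fam.2.1 (q_symI PP1 V_DH1 23 [(1, 10), (12, 17)]) k_DH1_23

lemma s_DHh_23 : ∀ r : ℤ, 0 ≤ r → r < 23 → inl [(0, 9), (12, 13)] r = true → Sd (PPh 2) 23 (VH 2) r :=
  deadA (V := V_DHh) (by norm_num) (q_cls.2.2 2) (cell_DHh (q_cls.2.2 2)) (q_fam.2.2 2) (q_symI (PPh 2) V_DHh 23 [(0, 9), (12, 13)]) k_DHh_23

lemma pa_D_23 : PA 23 2 :=
  ⟨covq 23 (by norm_num) (by norm_num) (by decide +kernel) s_DU1_23 s_DU1_23,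
    covq 23 (by norm_num) (by norm_num) (by decide +kernel) s_DUh_23 s_DH1_23,
    covq 23 (by norm_num) (by norm_num) (by decide +kernel) s_DHh_23 s_DHh_23⟩

theorem dead_23 : DeadAll 23 := mkDead 23 (by norm_num) th_23 be_23 pa_W_23 pa_T_23 pa_D_23

end Pool.Agent.Lib.MP_0bc52e_nt.K
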