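import Pool.Agent.Lib.MP_0bc52e_nt.K.Uni

/-!
The certificates for the modulus 29 (MP_0bc52e_nt).
-/

namespace Pool.Agent.Lib.MP_0bc52e_nt.K

open Pool.Agent.Lib.MP_0bc52e_nt.LC Pool.Agent.Lib.MP_0bc52e_nt.T Pool.Agent.Lib.MP_0bc52e_nt.R

lemma th_29 : ∀ R ∈ Theta, ∀ u, Dd PP0 29 (R.map toP) u :=
  theta_all (P := fun V => ∀ u, Dd PP0 29 V u) (dead0 (by norm_num) (by norm_num) (cell_th4 q_cls.1) ck_th4 k_th4_29)
    (dead0 (by norm_num) (by norm_num) (cell_th5 q_cls.1) ck_th5 k_th5_29)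
    (dead0 (by norm_num) (by norm_num) (cell_th7 q_cls.1) ck_th7 k_th7_29)
    (dead0 (by norm_num) (by norm_num) (cell_th11 q_cls.1) ck_th11 k_th11_29)
    (dead0 (by norm_num) (by norm_num) (cell_th13 q_cls.1) ck_th13 k_th13_29)
    (dead0 (by norm_num) (by norm_num) (cell_th17 q_cls.1) ck_th17 k_th17_29)
    (dead0 (by norm_num) (by norm_num) (cell_th19 q_cls.1) ck_th19 k_th19_29)
    (dead0 (by norm_num) (by norm_num) (cell_th20 q_cls.1) ck_th20 k_th20_29)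

lemma be_29 : ∀ R ∈ Beta, ∀ u, Dd PP0 29 (R.map toP) u :=
  beta_all (P := fun V => ∀ u, Dd PP0 29 V u) (dead0 (by norm_num) (by norm_num) (cell_b11 q_cls.1) ck_b11 k_b11_29)
    (dead0 (by norm_num) (by norm_num) (cell_b12 q_cls.1) ck_b12 k_b12_29)
    (dead0 (by norm_num) (by norm_num) (cell_b13 q_cls.1) ck_b13 k_b13_29)
    (dead0 (by norm_num) (by norm_num) (cell_b14 q_cls.1) ck_b14 k_b14_29)
    (dead0 (by norm_num) (by norm_num) (cell_b15 q_cls.1) ck_b15 k_b15_29)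
    (dead0 (by norm_num) (by norm_num) (cell_b21 q_cls.1) ck_b21 k_b21_29)
    (dead0 (by norm_num) (by norm_num) (cell_b23 q_cls.1) ck_b23 k_b23_29)
    (dead0 (by norm_num) (by norm_num) (cell_b25 q_cls.1) ck_b25 k_b25_29)
    (dead0 (by norm_num) (by norm_num) (cell_b27 q_cls.1) ck_b27 k_b27_29)
    (dead0 (by norm_num) (by norm_num) (cell_b31 q_cls.1) ck_b31 k_b31_29)
    (dead0 (by norm_num) (by norm_num) (cell_b35 q_cls.1) ck_b35 k_b35_29)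
    (dead0 (by norm_num) (by norm_num) (cell_b37 q_cls.1) ck_b37 k_b37_29)
    (dead0 (by norm_num) (by norm_num) (cell_b311 q_cls.1) ck_b311 k_b311_29)
    (dead0 (by norm_num) (by norm_num) (cell_bi3 q_cls.1) ck_bi3 k_bi3_29)

lemma s_WU1_29 : ∀ r : ℤ, 0 ≤ r → r < 29 → inl [(0, 6), (8, 8), (10, 11), (15, 17), (20, 20), (22, 22)] r = true → Sd PP1 29 (VU 0) r :=
  deadA (V := V_WU1) (by norm_num) q_cls.2.1 (cell_WU1 q_cls.2.1) q_fam.2.1 (q_sym1 V_WU1 S_WU1 29 [(0, 6), (8, 8), (10, 11), (15, 17), (20, 20), (22, 22)] (by norm_num) ck_WU1 blk_WU1) k_WU1_29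

lemma s_WUh_29 : ∀ r : ℤ, 0 ≤ r → r < 29 → inl [(0, 4)] r = true → Sd (PPh 0) 29 (VU 0) r :=
  deadA (V := V_WUh) (by norm_num) (q_cls.2.2 0) (cell_WUh (q_cls.2.2 0)) (q_fam.2.2 0) (q_symI (PPh 0) V_WUh 29 [(0, 4)]) k_WUh_29

lemma s_WH1_29 : ∀ r : ℤ, 0 ≤ r → r < 29 → inl [(1, 24)] r = true → Sd PP1 29 (VH 0) r :=
  deadA (V := V_WH1) (by norm_num) q_cls.2.1 (cell_WH1 q_cls.2.1) q_fam.2.1 (q_symI PP1 V_WH1 29 [(1, 24)]) k_WH1_29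

lemma s_WHh_29 : ∀ r : ℤ, 0 ≤ r → r < 29 → inl [(0, 12), (15, 16)] r = true → Sd (PPh 0) 29 (VH 0) r :=
  deadA (V := V_WHh) (by norm_num) (q_cls.2.2 0) (cell_WHh (q_cls.2.2 0)) (q_fam.2.2 0) (q_symI (PPh 0) V_WHh 29 [(0, 12), (15, 16)]) k_WHh_29

lemma pa_W_29 : PA 29 0 :=
  ⟨covq 29 (by norm_num) (by norm_num) (by decide +kernel) s_WU1_29 s_WU1_29,
    covq 29 (by norm_num) (by norm_num) (by decide +kernel) s_WUh_29 s_WH1_29,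
    covq 29 (by norm_num) (by norm_num) (by decide +kernel) s_WHh_29 s_WHh_29⟩

lemma s_TU1_29 : ∀ r : ℤ, 0 ≤ r → r < 29 → inl [(0, 6), (8, 8), (10, 12), (15, 16), (20, 20), (22, 22)] r = true → Sd PP1 29 (VU 1) r :=
  deadA (V := V_TU1) (by norm_num) q_cls.2.1 (cell_TU1 q_cls.2.1) q_fam.2.1 (q_sym1 V_TU1 S_TU1 29 [(0, 6), (8, 8), (10, 12), (15, 16), (20, 20), (22, 22)] (by norm_num) ck_TU1 blk_TU1) k_TU1_29

lemma s_TUh_29 : ∀ r : ℤ, 0 ≤ r → r < 29 → inl [(0, 6)] r = true → Sd (PPh 1) 29 (VU 1) r :=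
  deadA (V := V_TUh) (by norm_num) (q_cls.2.2 1) (cell_TUh (q_cls.2.2 1)) (q_fam.2.2 1) (q_symI (PPh 1) V_TUh 29 [(0, 6)]) k_TUh_29

lemma s_TH1_29 : ∀ r : ℤ, 0 ≤ r → r < 29 → inl [(1, 22)] r = true → Sd PP1 29 (VH 1) r :=
  deadA (V := V_TH1) (by norm_num) q_cls.2.1 (cell_TH1 q_cls.2.1) q_fam.2.1 (q_symI PP1 V_TH1 29 [(1, 22)]) k_TH1_29

lemma s_THh_29 : ∀ r : ℤ, 0 ≤ r → r < 29 → inl [(0, 12), (15, 16)] r = true → Sd (PPh 1) 29 (VH 1) r :=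
  deadA (V := V_THh) (by norm_num) (q_cls.2.2 1) (cell_THh (q_cls.2.2 1)) (q_fam.2.2 1) (q_symI (PPh 1) V_THh 29 [(0, 12), (15, 16)]) k_THh_29

lemma pa_T_29 : PA 29 1 :=
  ⟨covq 29 (by norm_num) (by norm_num) (by decide +kernel) s_TU1_29 s_TU1_29,
    covq 29 (by norm_num) (by norm_num) (by decide +kernel) s_TUh_29 s_TH1_29,
    covq 29 (by norm_num) (by norm_num) (by decide +kernel) s_THh_29 s_THh_29⟩

lemma s_DU1_29 : ∀ r : ℤ, 0 ≤ r → r < 29 → inl [(0, 6), (8, 8), (10, 12), (15, 16), (20, 20), (22, 22)] r = true → Sd PP1 29 (VU 2) r :=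
  deadA (V := V_DU1) (by norm_num) q_cls.2.1 (cell_DU1 q_cls.2.1) q_fam.2.1 (q_sym1 V_DU1 S_DU1 29 [(0, 6), (8, 8), (10, 12), (15, 16), (20, 20), (22, 22)] (by norm_num) ck_DU1 blk_DU1) k_DU1_29

lemma s_DUh_29 : ∀ r : ℤ, 0 ≤ r → r < 29 → inl [(0, 6), (15, 15)] r = true → Sd (PPh 2) 29 (VU 2) r :=
  deadA (V := V_DUh) (by norm_num) (q_cls.2.2 2) (cell_DUh (q_cls.2.2 2)) (q_fam.2.2 2) (q_symI (PPh 2) V_DUh 29 [(0, 6), (15, 15)]) k_DUh_29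

lemma s_DH1_29 : ∀ r : ℤ, 0 ≤ r → r < 29 → inl [(1, 13), (15, 22)] r = true → Sd PP1 29 (VH 2) r :=
  deadA (V := V_DH1) (by norm_num) q_cls.2.1 (cell_DH1 q_cls.2.1) q_fam.2.1 (q_symI PP1 V_DH1 29 [(1, 13), (15, 22)]) k_DH1_29

lemma s_DHh_29 : ∀ r : ℤ, 0 ≤ r → r < 29 → inl [(0, 11), (15, 17)] r = true → Sd (PPh 2) 29 (VH 2) r :=
  deadA (V := V_DHh) (by norm_num) (q_cls.2.2 2) (cell_DHh (q_cls.2.2 2)) (q_fam.2.2 2) (q_symI (PPh 2) V_DHh 29 [(0, 11), (15, 17)]) k_DHh_29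

lemma pa_D_29 : PA 29 2 :=
  ⟨covq 29 (by norm_num) (by norm_num) (by decide +kernel) s_DU1_29 s_DU1_29,
    covq 29 (by norm_num) (by norm_num) (by decide +kernel) s_DUh_29 s_DH1_29,
    covq 29 (by norm_num) (by norm_num) (by decide +kernel) s_DHh_29 s_DHh_29⟩

theorem dead_29 : DeadAll 29 := mkDead 29 (by norm_num) th_29 be_29 pa_W_29 pa_T_29 pa_D_29

end Pool.Agent.Lib.MP_0bc52e_nt.K
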