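import Pool.Agent.Lib.MP_0bc52e_nt.K.Uni

/-!
The certificates for the modulus 41 (MP_0bc52e_nt).
-/

namespace Pool.Agent.Lib.MP_0bc52e_nt.K

open Pool.Agent.Lib.MP_0bc52e_nt.LC Pool.Agent.Lib.MP_0bc52e_nt.T Pool.Agent.Lib.MP_0bc52e_nt.R

lemma th_41 : ∀ R ∈ Theta, ∀ u, Dd PP0 41 (R.map toP) u :=
  theta_all (P := fun V => ∀ u, Dd PP0 41 V u) (dead0 (by norm_num) (by norm_num) (cell_th4 q_cls.1) ck_th4 k_th4_41)
    (dead0 (by norm_num) (by norm_num) (cell_th5 q_cls.1) ck_th5 k_th5_41)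
    (dead0 (by norm_num) (by norm_num) (cell_th7 q_cls.1) ck_th7 k_th7_41)
    (dead0 (by norm_num) (by norm_num) (cell_th11 q_cls.1) ck_th11 k_th11_41)
    (dead0 (by norm_num) (by norm_num) (cell_th13 q_cls.1) ck_th13 k_th13_41)
    (dead0 (by norm_num) (by norm_num) (cell_th17 q_cls.1) ck_th17 k_th17_41)
    (dead0 (by norm_num) (by norm_num) (cell_th19 q_cls.1) ck_th19 k_th19_41)
    (dead0 (by norm_num) (by norm_num) (cell_th20 q_cls.1) ck_th20 k_th20_41)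

lemma be_41 : ∀ R ∈ Beta, ∀ u, Dd PP0 41 (R.map toP) u :=
  beta_all (P := fun V => ∀ u, Dd PP0 41 V u) (dead0 (by norm_num) (by norm_num) (cell_b11 q_cls.1) ck_b11 k_b11_41)
    (dead0 (by norm_num) (by norm_num) (cell_b12 q_cls.1) ck_b12 k_b12_41)
    (dead0 (by norm_num) (by norm_num) (cell_b13 q_cls.1) ck_b13 k_b13_41)
    (dead0 (by norm_num) (by norm_num) (cell_b14 q_cls.1) ck_b14 k_b14_41)
    (dead0 (by norm_num) (by norm_num) (cell_b15 q_cls.1) ck_b15 k_b15_41)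
    (dead0 (by norm_num) (by norm_num) (cell_b21 q_cls.1) ck_b21 k_b21_41)
    (dead0 (by norm_num) (by norm_num) (cell_b23 q_cls.1) ck_b23 k_b23_41)
    (dead0 (by norm_num) (by norm_num) (cell_b25 q_cls.1) ck_b25 k_b25_41)
    (dead0 (by norm_num) (by norm_num) (cell_b27 q_cls.1) ck_b27 k_b27_41)
    (dead0 (by norm_num) (by norm_num) (cell_b31 q_cls.1) ck_b31 k_b31_41)
    (dead0 (by norm_num) (by norm_num) (cell_b35 q_cls.1) ck_b35 k_b35_41)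
    (dead0 (by norm_num) (by norm_num) (cell_b37 q_cls.1) ck_b37 k_b37_41)
    (dead0 (by norm_num) (by norm_num) (cell_b311 q_cls.1) ck_b311 k_b311_41)
    (dead0 (by norm_num) (by norm_num) (cell_bi3 q_cls.1) ck_bi3 k_bi3_41)

lemma s_WU1_41 : ∀ r : ℤ, 0 ≤ r → r < 41 → inl [(0, 7), (9, 9), (11, 12), (14, 15), (21, 25), (28, 28), (31, 31), (33, 33)] r = true → Sd PP1 41 (VU 0) r :=
  deadA (V := V_WU1) (by norm_num) q_cls.2.1 (cell_WU1 q_cls.2.1) q_fam.2.1 (q_sym1 V_WU1 S_WU1 41 [(0, 7), (9, 9), (11, 12), (14, 15), (21, 25), (28, 28), (31, 31), (33, 33)] (by norm_num) ck_WU1 blk_WU1) k_WU1_41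

lemma s_WUh_41 : ∀ r : ℤ, 0 ≤ r → r < 41 → inl [(0, 6)] r = true → Sd (PPh 0) 41 (VU 0) r :=
  deadA (V := V_WUh) (by norm_num) (q_cls.2.2 0) (cell_WUh (q_cls.2.2 0)) (q_fam.2.2 0) (q_symI (PPh 0) V_WUh 41 [(0, 6)]) k_WUh_41

lemma s_WH1_41 : ∀ r : ℤ, 0 ≤ r → r < 41 → inl [(1, 34)] r = true → Sd PP1 41 (VH 0) r :=
  deadA (V := V_WH1) (by norm_num) q_cls.2.1 (cell_WH1 q_cls.2.1) q_fam.2.1 (q_symI PP1 V_WH1 41 [(1, 34)]) k_WH1_41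

lemma s_WHh_41 : ∀ r : ℤ, 0 ≤ r → r < 41 → inl [(0, 17), (21, 23)] r = true → Sd (PPh 0) 41 (VH 0) r :=
  deadA (V := V_WHh) (by norm_num) (q_cls.2.2 0) (cell_WHh (q_cls.2.2 0)) (q_fam.2.2 0) (q_symI (PPh 0) V_WHh 41 [(0, 17), (21, 23)]) k_WHh_41

lemma pa_W_41 : PA 41 0 :=
  ⟨covq 41 (by norm_num) (by norm_num) (by decide +kernel) s_WU1_41 s_WU1_41,
    covq 41 (by norm_num) (by norm_num) (by decide +kernel) s_WUh_41 s_WH1_41,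
    covq 41 (by norm_num) (by norm_num) (by decide +kernel) s_WHh_41 s_WHh_41⟩

lemma s_TU1_41 : ∀ r : ℤ, 0 ≤ r → r < 41 → inl [(0, 7), (9, 9), (11, 11), (14, 15), (17, 17), (21, 23), (25, 25), (28, 29), (31, 31), (33, 33)] r = true → Sd PP1 41 (VU 1) r :=
  deadA (V := V_TU1) (by norm_num) q_cls.2.1 (cell_TU1 q_cls.2.1) q_fam.2.1 (q_sym1 V_TU1 S_TU1 41 [(0, 7), (9, 9), (11, 11), (14, 15), (17, 17), (21, 23), (25, 25), (28, 29), (31, 31), (33, 33)] (by norm_num) ck_TU1 blk_TU1) k_TU1_41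

lemma s_TUh_41 : ∀ r : ℤ, 0 ≤ r → r < 41 → inl [(0, 7), (9, 9)] r = true → Sd (PPh 1) 41 (VU 1) r :=
  deadA (V := V_TUh) (by norm_num) (q_cls.2.2 1) (cell_TUh (q_cls.2.2 1)) (q_fam.2.2 1) (q_symI (PPh 1) V_TUh 41 [(0, 7), (9, 9)]) k_TUh_41

lemma s_TH1_41 : ∀ r : ℤ, 0 ≤ r → r < 41 → inl [(1, 31), (33, 33)] r = true → Sd PP1 41 (VH 1) r :=
  deadA (V := V_TH1) (by norm_num) q_cls.2.1 (cell_TH1 q_cls.2.1) q_fam.2.1 (q_symI PP1 V_TH1 41 [(1, 31), (33, 33)]) k_TH1_41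

lemma s_THh_41 : ∀ r : ℤ, 0 ≤ r → r < 41 → inl [(0, 16), (21, 24)] r = true → Sd (PPh 1) 41 (VH 1) r :=
  deadA (V := V_THh) (by norm_num) (q_cls.2.2 1) (cell_THh (q_cls.2.2 1)) (q_fam.2.2 1) (q_symI (PPh 1) V_THh 41 [(0, 16), (21, 24)]) k_THh_41

lemma pa_T_41 : PA 41 1 :=
  ⟨covq 41 (by norm_num) (by norm_num) (by decide +kernel) s_TU1_41 s_TU1_41,
    covq 41 (by norm_num) (by norm_num) (by decide +kernel) s_TUh_41 s_TH1_41,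
    covq 41 (by norm_num) (by norm_num) (by decide +kernel) s_THh_41 s_THh_41⟩

lemma s_DU1_41 : ∀ r : ℤ, 0 ≤ r → r < 41 → inl [(0, 9), (11, 12), (14, 15), (17, 17), (21, 23), (25, 25), (28, 28), (31, 31)] r = true → Sd PP1 41 (VU 2) r :=
  deadA (V := V_DU1) (by norm_num) q_cls.2.1 (cell_DU1 q_cls.2.1) q_fam.2.1 (q_sym1 V_DU1 S_DU1 41 [(0, 9), (11, 12), (14, 15), (17, 17), (21, 23), (25, 25), (28, 28), (31, 31)] (by norm_num) ck_DU1 blk_DU1) k_DU1_41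

lemma s_DUh_41 : ∀ r : ℤ, 0 ≤ r → r < 41 → inl [(0, 9), (14, 14), (21, 22)] r = true → Sd (PPh 2) 41 (VU 2) r :=
  deadA (V := V_DUh) (by norm_num) (q_cls.2.2 2) (cell_DUh (q_cls.2.2 2)) (q_fam.2.2 2) (q_symI (PPh 2) V_DUh 41 [(0, 9), (14, 14), (21, 22)]) k_DUh_41

lemma s_DH1_41 : ∀ r : ℤ, 0 ≤ r → r < 41 → inl [(1, 18), (21, 26), (28, 31)] r = true → Sd PP1 41 (VH 2) r :=
  deadA (V := V_DH1) (by norm_num) q_cls.2.1 (cell_DH1 q_cls.2.1) q_fam.2.1 (q_symI PP1 V_DH1 41 [(1, 18), (21, 26), (28, 31)]) k_DH1_41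

lemma s_DHh_41 : ∀ r : ℤ, 0 ≤ r → r < 41 → inl [(0, 16), (21, 24)] r = true → Sd (PPh 2) 41 (VH 2) r :=
  deadA (V := V_DHh) (by norm_num) (q_cls.2.2 2) (cell_DHh (q_cls.2.2 2)) (q_fam.2.2 2) (q_symI (PPh 2) V_DHh 41 [(0, 16), (21, 24)]) k_DHh_41

lemma pa_D_41 : PA 41 2 :=
  ⟨covq 41 (by norm_num) (by norm_num) (by decide +kernel) s_DU1_41 s_DU1_41,
    covq 41 (by norm_num) (by norm_num) (by decide +kernel) s_DUh_41 s_DH1_41,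
    covq 41 (by norm_num) (by norm_num) (by decide +kernel) s_DHh_41 s_DHh_41⟩

theorem dead_41 : DeadAll 41 := mkDead 41 (by norm_num) th_41 be_41 pa_W_41 pa_T_41 pa_D_41

end Pool.Agent.Lib.MP_0bc52e_nt.K
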