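import Pool.Agent.Lib.MP_0bc52e_nt.K.Uni

/-!
The certificates for the modulus 61 (MP_0bc52e_nt).
-/

namespace Pool.Agent.Lib.MP_0bc52e_nt.K

open Pool.Agent.Lib.MP_0bc52e_nt.LC Pool.Agent.Lib.MP_0bc52e_nt.T Pool.Agent.Lib.MP_0bc52e_nt.R

lemma th_61 : ∀ R ∈ Theta, ∀ u, Dd PP0 61 (R.map toP) u :=
  theta_all (P := fun V => ∀ u, Dd PP0 61 V u) (dead0 (by norm_num) (by norm_num) (cell_th4 q_cls.1) ck_th4 k_th4_61)
    (dead0 (by norm_num) (by norm_num) (cell_th5 q_cls.1) ck_th5 k_th5_61)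
    (dead0 (by norm_num) (by norm_num) (cell_th7 q_cls.1) ck_th7 k_th7_61)
    (dead0 (by norm_num) (by norm_num) (cell_th11 q_cls.1) ck_th11 k_th11_61)
    (dead0 (by norm_num) (by norm_num) (cell_th13 q_cls.1) ck_th13 k_th13_61)
    (dead0 (by norm_num) (by norm_num) (cell_th17 q_cls.1) ck_th17 k_th17_61)
    (dead0 (by norm_num) (by norm_num) (cell_th19 q_cls.1) ck_th19 k_th19_61)
    (dead0 (by norm_num) (by norm_num) (cell_th20 q_cls.1) ck_th20 k_th20_61)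

lemma be_61 : ∀ R ∈ Beta, ∀ u, Dd PP0 61 (R.map toP) u :=
  beta_all (P := fun V => ∀ u, Dd PP0 61 V u) (dead0 (by norm_num) (by norm_num) (cell_b11 q_cls.1) ck_b11 k_b11_61)
    (dead0 (by norm_num) (by norm_num) (cell_b12 q_cls.1) ck_b12 k_b12_61)
    (dead0 (by norm_num) (by norm_num) (cell_b13 q_cls.1) ck_b13 k_b13_61)
    (dead0 (by norm_num) (by norm_num) (cell_b14 q_cls.1) ck_b14 k_b14_61)
    (dead0 (by norm_num) (by norm_num) (cell_b15 q_cls.1) ck_b15 k_b15_61)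
    (dead0 (by norm_num) (by norm_num) (cell_b21 q_cls.1) ck_b21 k_b21_61)
    (dead0 (by norm_num) (by norm_num) (cell_b23 q_cls.1) ck_b23 k_b23_61)
    (dead0 (by norm_num) (by norm_num) (cell_b25 q_cls.1) ck_b25 k_b25_61)
    (dead0 (by norm_num) (by norm_num) (cell_b27 q_cls.1) ck_b27 k_b27_61)
    (dead0 (by norm_num) (by norm_num) (cell_b31 q_cls.1) ck_b31 k_b31_61)
    (dead0 (by norm_num) (by norm_num) (cell_b35 q_cls.1) ck_b35 k_b35_61)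
    (dead0 (by norm_num) (by norm_num) (cell_b37 q_cls.1) ck_b37 k_b37_61)
    (dead0 (by norm_num) (by norm_num) (cell_b311 q_cls.1) ck_b311 k_b311_61)
    (dead0 (by norm_num) (by norm_num) (cell_bi3 q_cls.1) ck_bi3 k_bi3_61)

lemma s_WU1_61 : ∀ r : ℤ, 0 ≤ r → r < 61 → inl [(0, 9), (11, 11), (13, 13), (16, 18), (21, 23), (25, 25), (31, 35), (37, 37), (41, 42), (46, 47), (49, 49), (51, 51)] r = true → Sd PP1 61 (VU 0) r :=
  deadA (V := V_WU1) (by norm_num) q_cls.2.1 (cell_WU1 q_cls.2.1) q_fam.2.1 (q_sym1 V_WU1 S_WU1 61 [(0, 9), (11, 11), (13, 13), (16, 18), (21, 23), (25, 25), (31, 35), (37, 37), (41, 42), (46, 47), (49, 49), (51, 51)] (by norm_num) ck_WU1 blk_WU1) k_WU1_61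

lemma s_WUh_61 : ∀ r : ℤ, 0 ≤ r → r < 61 → inl [(0, 8)] r = true → Sd (PPh 0) 61 (VU 0) r :=
  deadA (V := V_WUh) (by norm_num) (q_cls.2.2 0) (cell_WUh (q_cls.2.2 0)) (q_fam.2.2 0) (q_symI (PPh 0) V_WUh 61 [(0, 8)]) k_WUh_61

lemma s_WH1_61 : ∀ r : ℤ, 0 ≤ r → r < 61 → inl [(1, 52)] r = true → Sd PP1 61 (VH 0) r :=
  deadA (V := V_WH1) (by norm_num) q_cls.2.1 (cell_WH1 q_cls.2.1) q_fam.2.1 (q_symI PP1 V_WH1 61 [(1, 52)]) k_WH1_61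

lemma s_WHh_61 : ∀ r : ℤ, 0 ≤ r → r < 61 → inl [(0, 24), (26, 26), (31, 34), (36, 36)] r = true → Sd (PPh 0) 61 (VH 0) r :=
  deadA (V := V_WHh) (by norm_num) (q_cls.2.2 0) (cell_WHh (q_cls.2.2 0)) (q_fam.2.2 0) (q_symI (PPh 0) V_WHh 61 [(0, 24), (26, 26), (31, 34), (36, 36)]) k_WHh_61

lemma pa_W_61 : PA 61 0 :=
  ⟨covq 61 (by norm_num) (by norm_num) (by decide +kernel) s_WU1_61 s_WU1_61,
    covq 61 (by norm_num) (by norm_num) (by decide +kernel) s_WUh_61 s_WH1_61,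
    covq 61 (by norm_num) (by norm_num) (by decide +kernel) s_WHh_61 s_WHh_61⟩

lemma s_TU1_61 : ∀ r : ℤ, 0 ≤ r → r < 61 → inl [(0, 9), (11, 11), (13, 14), (16, 18), (21, 23), (25, 25), (31, 35), (37, 37), (41, 42), (46, 46), (49, 49), (51, 51)] r = true → Sd PP1 61 (VU 1) r :=
  deadA (V := V_TU1) (by norm_num) q_cls.2.1 (cell_TU1 q_cls.2.1) q_fam.2.1 (q_sym1 V_TU1 S_TU1 61 [(0, 9), (11, 11), (13, 14), (16, 18), (21, 23), (25, 25), (31, 35), (37, 37), (41, 42), (46, 46), (49, 49), (51, 51)] (by norm_num) ck_TU1 blk_TU1) k_TU1_61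

lemma s_TUh_61 : ∀ r : ℤ, 0 ≤ r → r < 61 → inl [(0, 9), (11, 11), (13, 13)] r = true → Sd (PPh 1) 61 (VU 1) r :=
  deadA (V := V_TUh) (by norm_num) (q_cls.2.2 1) (cell_TUh (q_cls.2.2 1)) (q_fam.2.2 1) (q_symI (PPh 1) V_TUh 61 [(0, 9), (11, 11), (13, 13)]) k_TUh_61

lemma s_TH1_61 : ∀ r : ℤ, 0 ≤ r → r < 61 → inl [(1, 47), (49, 49), (51, 51)] r = true → Sd PP1 61 (VH 1) r :=
  deadA (V := V_TH1) (by norm_num) q_cls.2.1 (cell_TH1 q_cls.2.1) q_fam.2.1 (q_symI PP1 V_TH1 61 [(1, 47), (49, 49), (51, 51)]) k_TH1_61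

lemma s_THh_61 : ∀ r : ℤ, 0 ≤ r → r < 61 → inl [(0, 24), (26, 26), (31, 34), (36, 36)] r = true → Sd (PPh 1) 61 (VH 1) r :=
  deadA (V := V_THh) (by norm_num) (q_cls.2.2 1) (cell_THh (q_cls.2.2 1)) (q_fam.2.2 1) (q_symI (PPh 1) V_THh 61 [(0, 24), (26, 26), (31, 34), (36, 36)]) k_THh_61

lemma pa_T_61 : PA 61 1 :=
  ⟨covq 61 (by norm_num) (by norm_num) (by decide +kernel) s_TU1_61 s_TU1_61,
    covq 61 (by norm_num) (by norm_num) (by decide +kernel) s_TUh_61 s_TH1_61,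
    covq 61 (by norm_num) (by norm_num) (by decide +kernel) s_THh_61 s_THh_61⟩

lemma s_DU1_61 : ∀ r : ℤ, 0 ≤ r → r < 61 → inl [(0, 14), (16, 18), (21, 23), (25, 25), (31, 35), (37, 37), (41, 42), (46, 46)] r = true → Sd PP1 61 (VU 2) r :=
  deadA (V := V_DU1) (by norm_num) q_cls.2.1 (cell_DU1 q_cls.2.1) q_fam.2.1 (q_sym1 V_DU1 S_DU1 61 [(0, 14), (16, 18), (21, 23), (25, 25), (31, 35), (37, 37), (41, 42), (46, 46)] (by norm_num) ck_DU1 blk_DU1) k_DU1_61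

lemma s_DUh_61 : ∀ r : ℤ, 0 ≤ r → r < 61 → inl [(0, 13), (31, 33)] r = true → Sd (PPh 2) 61 (VU 2) r :=
  deadA (V := V_DUh) (by norm_num) (q_cls.2.2 2) (cell_DUh (q_cls.2.2 2)) (q_fam.2.2 2) (q_symI (PPh 2) V_DUh 61 [(0, 13), (31, 33)]) k_DUh_61

lemma s_DH1_61 : ∀ r : ℤ, 0 ≤ r → r < 61 → inl [(1, 27), (31, 47)] r = true → Sd PP1 61 (VH 2) r :=
  deadA (V := V_DH1) (by norm_num) q_cls.2.1 (cell_DH1 q_cls.2.1) q_fam.2.1 (q_symI PP1 V_DH1 61 [(1, 27), (31, 47)]) k_DH1_61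

lemma s_DHh_61 : ∀ r : ℤ, 0 ≤ r → r < 61 → inl [(0, 24), (26, 26), (31, 34), (36, 36)] r = true → Sd (PPh 2) 61 (VH 2) r :=
  deadA (V := V_DHh) (by norm_num) (q_cls.2.2 2) (cell_DHh (q_cls.2.2 2)) (q_fam.2.2 2) (q_symI (PPh 2) V_DHh 61 [(0, 24), (26, 26), (31, 34), (36, 36)]) k_DHh_61

lemma pa_D_61 : PA 61 2 :=
  ⟨covq 61 (by norm_num) (by norm_num) (by decide +kernel) s_DU1_61 s_DU1_61,
    covq 61 (by norm_num) (by norm_num) (by decide +kernel) s_DUh_61 s_DH1_61,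
    covq 61 (by norm_num) (by norm_num) (by decide +kernel) s_DHh_61 s_DHh_61⟩

theorem dead_61 : DeadAll 61 := mkDead 61 (by norm_num) th_61 be_61 pa_W_61 pa_T_61 pa_D_61

end Pool.Agent.Lib.MP_0bc52e_nt.K
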