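import Pool.Agent.Lib.MP_0bc52e_nt.K.Uni

/-!
The certificates for the modulus 73 (MP_0bc52e_nt).
-/

namespace Pool.Agent.Lib.MP_0bc52e_nt.K

open Pool.Agent.Lib.MP_0bc52e_nt.LC Pool.Agent.Lib.MP_0bc52e_nt.T Pool.Agent.Lib.MP_0bc52e_nt.R

lemma th_73 : ∀ R ∈ Theta, ∀ u, Dd PP0 73 (R.map toP) u :=
  theta_all (P := fun V => ∀ u, Dd PP0 73 V u) (u_th4 (by norm_num))
    (u_th5 (by norm_num))
    (u_th7 (by norm_num))
    (u_th11 (by norm_num))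
    (u_th13 (by norm_num))
    (u_th17 (by norm_num))
    (u_th19 (by norm_num))
    (u_th20 (by norm_num))

lemma be_73 : ∀ R ∈ Beta, ∀ u, Dd PP0 73 (R.map toP) u :=
  beta_all (P := fun V => ∀ u, Dd PP0 73 V u) (u_b11 (by norm_num))
    (u_b12 (by norm_num))
    (u_b13 (by norm_num))
    (u_b14 (by norm_num))
    (u_b15 (by norm_num))
    (u_b21 (by norm_num))
    (u_b23 (by norm_num))
    (u_b25 (by norm_num))
    (u_b27 (by norm_num))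
    (u_b31 (by norm_num))
    (u_b35 (by norm_num))
    (u_b37 (by norm_num))
    (u_b311 (by norm_num))
    (u_bi3 (by norm_num))

lemma s_WU1_73 : ∀ r : ℤ, 0 ≤ r → r < 73 → inl [(0, 11), (13, 13), (15, 16), (19, 21), (25, 28), (30, 30), (37, 42), (44, 44), (49, 51), (55, 56), (59, 59), (61, 61)] r = true → Sd PP1 73 (VU 0) r :=
  deadA (V := V_WU1) (by norm_num) q_cls.2.1 (cell_WU1 q_cls.2.1) q_fam.2.1 (q_sym1 V_WU1 S_WU1 73 [(0, 11), (13, 13), (15, 16), (19, 21), (25, 28), (30, 30), (37, 42), (44, 44), (49, 51), (55, 56), (59, 59), (61, 61)] (by norm_num) ck_WU1 blk_WU1) k_WU1_73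

lemma s_WUh_73 : ∀ r : ℤ, 0 ≤ r → r < 73 → inl [(0, 9)] r = true → Sd (PPh 0) 73 (VU 0) r :=
  deadA (V := V_WUh) (by norm_num) (q_cls.2.2 0) (cell_WUh (q_cls.2.2 0)) (q_fam.2.2 0) (q_symI (PPh 0) V_WUh 73 [(0, 9)]) k_WUh_73

lemma s_WH1_73 : ∀ r : ℤ, 0 ≤ r → r < 73 → inl [(1, 63)] r = true → Sd PP1 73 (VH 0) r :=
  deadA (V := V_WH1) (by norm_num) q_cls.2.1 (cell_WH1 q_cls.2.1) q_fam.2.1 (q_symI PP1 V_WH1 73 [(1, 63)]) k_WH1_73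

lemma s_WHh_73 : ∀ r : ℤ, 0 ≤ r → r < 73 → inl [(0, 30), (37, 42)] r = true → Sd (PPh 0) 73 (VH 0) r :=
  deadA (V := V_WHh) (by norm_num) (q_cls.2.2 0) (cell_WHh (q_cls.2.2 0)) (q_fam.2.2 0) (q_symI (PPh 0) V_WHh 73 [(0, 30), (37, 42)]) k_WHh_73

lemma pa_W_73 : PA 73 0 :=
  ⟨covq 73 (by norm_num) (by norm_num) (by decide +kernel) s_WU1_73 s_WU1_73,
    covq 73 (by norm_num) (by norm_num) (by decide +kernel) s_WUh_73 s_WH1_73,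
    covq 73 (by norm_num) (by norm_num) (by decide +kernel) s_WHh_73 s_WHh_73⟩

lemma s_TU1_73 : ∀ r : ℤ, 0 ≤ r → r < 73 → inl [(0, 11), (13, 13), (15, 17), (19, 22), (25, 27), (30, 30), (37, 42), (44, 45), (49, 50), (55, 55), (59, 59), (61, 61)] r = true → Sd PP1 73 (VU 1) r :=
  deadA (V := V_TU1) (by norm_num) q_cls.2.1 (cell_TU1 q_cls.2.1) q_fam.2.1 (q_sym1 V_TU1 S_TU1 73 [(0, 11), (13, 13), (15, 17), (19, 22), (25, 27), (30, 30), (37, 42), (44, 45), (49, 50), (55, 55), (59, 59), (61, 61)] (by norm_num) ck_TU1 blk_TU1) k_TU1_73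

lemma s_TUh_73 : ∀ r : ℤ, 0 ≤ r → r < 73 → inl [(0, 11), (13, 13), (15, 16)] r = true → Sd (PPh 1) 73 (VU 1) r :=
  deadA (V := V_TUh) (by norm_num) (q_cls.2.2 1) (cell_TUh (q_cls.2.2 1)) (q_fam.2.2 1) (q_symI (PPh 1) V_TUh 73 [(0, 11), (13, 13), (15, 16)]) k_TUh_73

lemma s_TH1_73 : ∀ r : ℤ, 0 ≤ r → r < 73 → inl [(1, 56), (59, 59), (61, 61)] r = true → Sd PP1 73 (VH 1) r :=
  deadA (V := V_TH1) (by norm_num) q_cls.2.1 (cell_TH1 q_cls.2.1) q_fam.2.1 (q_symI PP1 V_TH1 73 [(1, 56), (59, 59), (61, 61)]) k_TH1_73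

lemma s_THh_73 : ∀ r : ℤ, 0 ≤ r → r < 73 → inl [(0, 30), (37, 42)] r = true → Sd (PPh 1) 73 (VH 1) r :=
  deadA (V := V_THh) (by norm_num) (q_cls.2.2 1) (cell_THh (q_cls.2.2 1)) (q_fam.2.2 1) (q_symI (PPh 1) V_THh 73 [(0, 30), (37, 42)]) k_THh_73

lemma pa_T_73 : PA 73 1 :=
  ⟨covq 73 (by norm_num) (by norm_num) (by decide +kernel) s_TU1_73 s_TU1_73,
    covq 73 (by norm_num) (by norm_num) (by decide +kernel) s_TUh_73 s_TH1_73,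
    covq 73 (by norm_num) (by norm_num) (by decide +kernel) s_THh_73 s_THh_73⟩

lemma s_DU1_73 : ∀ r : ℤ, 0 ≤ r → r < 73 → inl [(0, 17), (19, 22), (25, 28), (30, 30), (37, 42), (44, 44), (49, 50), (55, 55)] r = true → Sd PP1 73 (VU 2) r :=
  deadA (V := V_DU1) (by norm_num) q_cls.2.1 (cell_DU1 q_cls.2.1) q_fam.2.1 (q_sym1 V_DU1 S_DU1 73 [(0, 17), (19, 22), (25, 28), (30, 30), (37, 42), (44, 44), (49, 50), (55, 55)] (by norm_num) ck_DU1 blk_DU1) k_DU1_73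

lemma s_DUh_73 : ∀ r : ℤ, 0 ≤ r → r < 73 → inl [(0, 16), (37, 40)] r = true → Sd (PPh 2) 73 (VU 2) r :=
  deadA (V := V_DUh) (by norm_num) (q_cls.2.2 2) (cell_DUh (q_cls.2.2 2)) (q_fam.2.2 2) (q_symI (PPh 2) V_DUh 73 [(0, 16), (37, 40)]) k_DUh_73

lemma s_DH1_73 : ∀ r : ℤ, 0 ≤ r → r < 73 → inl [(1, 32), (37, 56)] r = true → Sd PP1 73 (VH 2) r :=
  deadA (V := V_DH1) (by norm_num) q_cls.2.1 (cell_DH1 q_cls.2.1) q_fam.2.1 (q_symI PP1 V_DH1 73 [(1, 32), (37, 56)]) k_DH1_73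

lemma s_DHh_73 : ∀ r : ℤ, 0 ≤ r → r < 73 → inl [(0, 28), (30, 30), (37, 42), (44, 44)] r = true → Sd (PPh 2) 73 (VH 2) r :=
  deadA (V := V_DHh) (by norm_num) (q_cls.2.2 2) (cell_DHh (q_cls.2.2 2)) (q_fam.2.2 2) (q_symI (PPh 2) V_DHh 73 [(0, 28), (30, 30), (37, 42), (44, 44)]) k_DHh_73

lemma pa_D_73 : PA 73 2 :=
  ⟨covq 73 (by norm_num) (by norm_num) (by decide +kernel) s_DU1_73 s_DU1_73,
    covq 73 (by norm_num) (by norm_num) (by decide +kernel) s_DUh_73 s_DH1_73,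
    covq 73 (by norm_num) (by norm_num) (by decide +kernel) s_DHh_73 s_DHh_73⟩

theorem dead_73 : DeadAll 73 := mkDead 73 (by norm_num) th_73 be_73 pa_W_73 pa_T_73 pa_D_73

end Pool.Agent.Lib.MP_0bc52e_nt.K
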