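import Pool.Agent.Lib.MP_0bc52e_nt.K.Uni

/-!
The certificates for the modulus 79 (MP_0bc52e_nt).
-/

namespace Pool.Agent.Lib.MP_0bc52e_nt.K

open Pool.Agent.Lib.MP_0bc52e_nt.LC Pool.Agent.Lib.MP_0bc52e_nt.T Pool.Agent.Lib.MP_0bc52e_nt.R

lemma th_79 : ∀ R ∈ Theta, ∀ u, Dd PP0 79 (R.map toP) u :=
  theta_all (P := fun V => ∀ u, Dd PP0 79 V u) (u_th4 (by norm_num))
    (u_th5 (by norm_num))
    (u_th7 (by norm_num))
    (u_th11 (by norm_num))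
    (u_th13 (by norm_num))
    (u_th17 (by norm_num))
    (u_th19 (by norm_num))
    (u_th20 (by norm_num))

lemma be_79 : ∀ R ∈ Beta, ∀ u, Dd PP0 79 (R.map toP) u :=
  beta_all (P := fun V => ∀ u, Dd PP0 79 V u) (u_b11 (by norm_num))
    (u_b12 (by norm_num))
    (u_b13 (by norm_num))
    (u_b14 (by norm_num))
    (u_b15 (by norm_num))
    (u_b21 (by norm_num))
    (u_b23 (by norm_num))
    (u_b25 (by norm_num))
    (u_b27 (by norm_num))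
    (u_b31 (by norm_num))
    (u_b35 (by norm_num))
    (u_b37 (by norm_num))
    (u_b311 (by norm_num))
    (u_bi3 (by norm_num))

lemma s_WU1_79 : ∀ r : ℤ, 0 ≤ r → r < 79 → inl [(0, 12), (14, 14), (16, 18), (20, 23), (27, 30), (32, 32), (34, 34), (40, 44), (46, 46), (48, 48), (53, 55), (60, 60), (64, 64), (66, 66)] r = true → Sd PP1 79 (VU 0) r :=
  deadA (V := V_WU1) (by norm_num) q_cls.2.1 (cell_WU1 q_cls.2.1) q_fam.2.1 (q_sym1 V_WU1 S_WU1 79 [(0, 12), (14, 14), (16, 18), (20, 23), (27, 30), (32, 32), (34, 34), (40, 44), (46, 46), (48, 48), (53, 55), (60, 60), (64, 64), (66, 66)] (by norm_num) ck_WU1 blk_WU1) k_WU1_79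

lemma s_WUh_79 : ∀ r : ℤ, 0 ≤ r → r < 79 → inl [(0, 10)] r = true → Sd (PPh 0) 79 (VU 0) r :=
  deadA (V := V_WUh) (by norm_num) (q_cls.2.2 0) (cell_WUh (q_cls.2.2 0)) (q_fam.2.2 0) (q_symI (PPh 0) V_WUh 79 [(0, 10)]) k_WUh_79

lemma s_WH1_79 : ∀ r : ℤ, 0 ≤ r → r < 79 → inl [(1, 68)] r = true → Sd PP1 79 (VH 0) r :=
  deadA (V := V_WH1) (by norm_num) q_cls.2.1 (cell_WH1 q_cls.2.1) q_fam.2.1 (q_symI PP1 V_WH1 79 [(1, 68)]) k_WH1_79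

lemma s_WHh_79 : ∀ r : ℤ, 0 ≤ r → r < 79 → inl [(0, 33), (35, 35), (40, 43), (45, 45)] r = true → Sd (PPh 0) 79 (VH 0) r :=
  deadA (V := V_WHh) (by norm_num) (q_cls.2.2 0) (cell_WHh (q_cls.2.2 0)) (q_fam.2.2 0) (q_symI (PPh 0) V_WHh 79 [(0, 33), (35, 35), (40, 43), (45, 45)]) k_WHh_79

lemma pa_W_79 : PA 79 0 :=
  ⟨covq 79 (by norm_num) (by norm_num) (by decide +kernel) s_WU1_79 s_WU1_79,
    covq 79 (by norm_num) (by norm_num) (by decide +kernel) s_WUh_79 s_WH1_79,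
    covq 79 (by norm_num) (by norm_num) (by decide +kernel) s_WHh_79 s_WHh_79⟩

lemma s_TU1_79 : ∀ r : ℤ, 0 ≤ r → r < 79 → inl [(0, 12), (14, 18), (20, 23), (27, 30), (32, 32), (40, 46), (48, 48), (53, 55), (60, 60), (66, 66)] r = true → Sd PP1 79 (VU 1) r :=
  deadA (V := V_TU1) (by norm_num) q_cls.2.1 (cell_TU1 q_cls.2.1) q_fam.2.1 (q_sym1 V_TU1 S_TU1 79 [(0, 12), (14, 18), (20, 23), (27, 30), (32, 32), (40, 46), (48, 48), (53, 55), (60, 60), (66, 66)] (by norm_num) ck_TU1 blk_TU1) k_TU1_79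

lemma s_TUh_79 : ∀ r : ℤ, 0 ≤ r → r < 79 → inl [(0, 12), (14, 17), (20, 20)] r = true → Sd (PPh 1) 79 (VU 1) r :=
  deadA (V := V_TUh) (by norm_num) (q_cls.2.2 1) (cell_TUh (q_cls.2.2 1)) (q_fam.2.2 1) (q_symI (PPh 1) V_TUh 79 [(0, 12), (14, 17), (20, 20)]) k_TUh_79

lemma s_TH1_79 : ∀ r : ℤ, 0 ≤ r → r < 79 → inl [(1, 58), (60, 61), (66, 66)] r = true → Sd PP1 79 (VH 1) r :=
  deadA (V := V_TH1) (by norm_num) q_cls.2.1 (cell_TH1 q_cls.2.1) q_fam.2.1 (q_symI PP1 V_TH1 79 [(1, 58), (60, 61), (66, 66)]) k_TH1_79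

lemma s_THh_79 : ∀ r : ℤ, 0 ≤ r → r < 79 → inl [(0, 32), (34, 34), (40, 44), (46, 46)] r = true → Sd (PPh 1) 79 (VH 1) r :=
  deadA (V := V_THh) (by norm_num) (q_cls.2.2 1) (cell_THh (q_cls.2.2 1)) (q_fam.2.2 1) (q_symI (PPh 1) V_THh 79 [(0, 32), (34, 34), (40, 44), (46, 46)]) k_THh_79

lemma pa_T_79 : PA 79 1 :=
  ⟨covq 79 (by norm_num) (by norm_num) (by decide +kernel) s_TU1_79 s_TU1_79,
    covq 79 (by norm_num) (by norm_num) (by decide +kernel) s_TUh_79 s_TH1_79,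
    covq 79 (by norm_num) (by norm_num) (by decide +kernel) s_THh_79 s_THh_79⟩

lemma s_DU1_79 : ∀ r : ℤ, 0 ≤ r → r < 79 → inl [(0, 24), (27, 30), (32, 32), (40, 46), (48, 48), (53, 54)] r = true → Sd PP1 79 (VU 2) r :=
  deadA (V := V_DU1) (by norm_num) q_cls.2.1 (cell_DU1 q_cls.2.1) q_fam.2.1 (q_sym1 V_DU1 S_DU1 79 [(0, 24), (27, 30), (32, 32), (40, 46), (48, 48), (53, 54)] (by norm_num) ck_DU1 blk_DU1) k_DU1_79

lemma s_DUh_79 : ∀ r : ℤ, 0 ≤ r → r < 79 → inl [(0, 18), (20, 20), (40, 42)] r = true → Sd (PPh 2) 79 (VU 2) r :=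
  deadA (V := V_DUh) (by norm_num) (q_cls.2.2 2) (cell_DUh (q_cls.2.2 2)) (q_fam.2.2 2) (q_symI (PPh 2) V_DUh 79 [(0, 18), (20, 20), (40, 42)]) k_DUh_79

lemma s_DH1_79 : ∀ r : ℤ, 0 ≤ r → r < 79 → inl [(1, 36), (40, 58), (60, 60)] r = true → Sd PP1 79 (VH 2) r :=
  deadA (V := V_DH1) (by norm_num) q_cls.2.1 (cell_DH1 q_cls.2.1) q_fam.2.1 (q_symI PP1 V_DH1 79 [(1, 36), (40, 58), (60, 60)]) k_DH1_79

lemma s_DHh_79 : ∀ r : ℤ, 0 ≤ r → r < 79 → inl [(0, 30), (32, 32), (40, 46), (48, 48)] r = true → Sd (PPh 2) 79 (VH 2) r :=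
  deadA (V := V_DHh) (by norm_num) (q_cls.2.2 2) (cell_DHh (q_cls.2.2 2)) (q_fam.2.2 2) (q_symI (PPh 2) V_DHh 79 [(0, 30), (32, 32), (40, 46), (48, 48)]) k_DHh_79

lemma pa_D_79 : PA 79 2 :=
  ⟨covq 79 (by norm_num) (by norm_num) (by decide +kernel) s_DU1_79 s_DU1_79,
    covq 79 (by norm_num) (by norm_num) (by decide +kernel) s_DUh_79 s_DH1_79,
    covq 79 (by norm_num) (by norm_num) (by decide +kernel) s_DHh_79 s_DHh_79⟩

theorem dead_79 : DeadAll 79 := mkDead 79 (by norm_num) th_79 be_79 pa_W_79 pa_T_79 pa_D_79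

end Pool.Agent.Lib.MP_0bc52e_nt.K
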