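import Pool.Agent.Lib.MP_0bc52e_nt.K.Uni

/-!
The certificates for the modulus 83 (MP_0bc52e_nt).
-/

namespace Pool.Agent.Lib.MP_0bc52e_nt.K

open Pool.Agent.Lib.MP_0bc52e_nt.LC Pool.Agent.Lib.MP_0bc52e_nt.T Pool.Agent.Lib.MP_0bc52e_nt.R

lemma th_83 : ∀ R ∈ Theta, ∀ u, Dd PP0 83 (R.map toP) u :=
  theta_all (P := fun V => ∀ u, Dd PP0 83 V u) (u_th4 (by norm_num))
    (u_th5 (by norm_num))
    (u_th7 (by norm_num))
    (u_th11 (by norm_num))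
    (u_th13 (by norm_num))
    (u_th17 (by norm_num))
    (u_th19 (by norm_num))
    (u_th20 (by norm_num))

lemma be_83 : ∀ R ∈ Beta, ∀ u, Dd PP0 83 (R.map toP) u :=
  beta_all (P := fun V => ∀ u, Dd PP0 83 V u) (u_b11 (by norm_num))
    (u_b12 (by norm_num))
    (u_b13 (by norm_num))
    (u_b14 (by norm_num))
    (u_b15 (by norm_num))
    (u_b21 (by norm_num))
    (u_b23 (by norm_num))
    (u_b25 (by norm_num))
    (u_b27 (by norm_num))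
    (u_b31 (by norm_num))
    (u_b35 (by norm_num))
    (u_b37 (by norm_num))
    (u_b311 (by norm_num))
    (u_bi3 (by norm_num))

lemma s_WU1_83 : ∀ r : ℤ, 0 ≤ r → r < 83 → inl [(0, 15), (17, 19), (21, 24), (28, 31), (34, 34), (42, 48), (50, 51), (56, 58), (63, 63), (67, 67)] r = true → Sd PP1 83 (VU 0) r :=
  deadA (V := V_WU1) (by norm_num) q_cls.2.1 (cell_WU1 q_cls.2.1) q_fam.2.1 (q_sym1 V_WU1 S_WU1 83 [(0, 15), (17, 19), (21, 24), (28, 31), (34, 34), (42, 48), (50, 51), (56, 58), (63, 63), (67, 67)] (by norm_num) ck_WU1 blk_WU1) k_WU1_83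

lemma s_WUh_83 : ∀ r : ℤ, 0 ≤ r → r < 83 → inl [(0, 11)] r = true → Sd (PPh 0) 83 (VU 0) r :=
  deadA (V := V_WUh) (by norm_num) (q_cls.2.2 0) (cell_WUh (q_cls.2.2 0)) (q_fam.2.2 0) (q_symI (PPh 0) V_WUh 83 [(0, 11)]) k_WUh_83

lemma s_WH1_83 : ∀ r : ℤ, 0 ≤ r → r < 83 → inl [(1, 71)] r = true → Sd PP1 83 (VH 0) r :=
  deadA (V := V_WH1) (by norm_num) q_cls.2.1 (cell_WH1 q_cls.2.1) q_fam.2.1 (q_symI PP1 V_WH1 83 [(1, 71)]) k_WH1_83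

lemma s_WHh_83 : ∀ r : ℤ, 0 ≤ r → r < 83 → inl [(0, 34), (37, 37), (42, 45), (47, 48)] r = true → Sd (PPh 0) 83 (VH 0) r :=
  deadA (V := V_WHh) (by norm_num) (q_cls.2.2 0) (cell_WHh (q_cls.2.2 0)) (q_fam.2.2 0) (q_symI (PPh 0) V_WHh 83 [(0, 34), (37, 37), (42, 45), (47, 48)]) k_WHh_83

lemma pa_W_83 : PA 83 0 :=
  ⟨covq 83 (by norm_num) (by norm_num) (by decide +kernel) s_WU1_83 s_WU1_83,
    covq 83 (by norm_num) (by norm_num) (by decide +kernel) s_WUh_83 s_WH1_83,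
    covq 83 (by norm_num) (by norm_num) (by decide +kernel) s_WHh_83 s_WHh_83⟩

lemma s_TU1_83 : ∀ r : ℤ, 0 ≤ r → r < 83 → inl [(0, 15), (17, 19), (21, 25), (28, 31), (34, 34), (42, 48), (50, 51), (56, 57), (63, 63), (67, 67)] r = true → Sd PP1 83 (VU 1) r :=
  deadA (V := V_TU1) (by norm_num) q_cls.2.1 (cell_TU1 q_cls.2.1) q_fam.2.1 (q_sym1 V_TU1 S_TU1 83 [(0, 15), (17, 19), (21, 25), (28, 31), (34, 34), (42, 48), (50, 51), (56, 57), (63, 63), (67, 67)] (by norm_num) ck_TU1 blk_TU1) k_TU1_83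

lemma s_TUh_83 : ∀ r : ℤ, 0 ≤ r → r < 83 → inl [(0, 15), (17, 18)] r = true → Sd (PPh 1) 83 (VU 1) r :=
  deadA (V := V_TUh) (by norm_num) (q_cls.2.2 1) (cell_TUh (q_cls.2.2 1)) (q_fam.2.2 1) (q_symI (PPh 1) V_TUh 83 [(0, 15), (17, 18)]) k_TUh_83

lemma s_TH1_83 : ∀ r : ℤ, 0 ≤ r → r < 83 → inl [(1, 64), (67, 67)] r = true → Sd PP1 83 (VH 1) r :=
  deadA (V := V_TH1) (by norm_num) q_cls.2.1 (cell_TH1 q_cls.2.1) q_fam.2.1 (q_symI PP1 V_TH1 83 [(1, 64), (67, 67)]) k_TH1_83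

lemma s_THh_83 : ∀ r : ℤ, 0 ≤ r → r < 83 → inl [(0, 34), (36, 36), (42, 46), (48, 48)] r = true → Sd (PPh 1) 83 (VH 1) r :=
  deadA (V := V_THh) (by norm_num) (q_cls.2.2 1) (cell_THh (q_cls.2.2 1)) (q_fam.2.2 1) (q_symI (PPh 1) V_THh 83 [(0, 34), (36, 36), (42, 46), (48, 48)]) k_THh_83

lemma pa_T_83 : PA 83 1 :=
  ⟨covq 83 (by norm_num) (by norm_num) (by decide +kernel) s_TU1_83 s_TU1_83,
    covq 83 (by norm_num) (by norm_num) (by decide +kernel) s_TUh_83 s_TH1_83,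
    covq 83 (by norm_num) (by norm_num) (by decide +kernel) s_THh_83 s_THh_83⟩

lemma s_DU1_83 : ∀ r : ℤ, 0 ≤ r → r < 83 → inl [(0, 25), (28, 31), (34, 34), (42, 48), (50, 51), (56, 57)] r = true → Sd PP1 83 (VU 2) r :=
  deadA (V := V_DU1) (by norm_num) q_cls.2.1 (cell_DU1 q_cls.2.1) q_fam.2.1 (q_sym1 V_DU1 S_DU1 83 [(0, 25), (28, 31), (34, 34), (42, 48), (50, 51), (56, 57)] (by norm_num) ck_DU1 blk_DU1) k_DU1_83

lemma s_DUh_83 : ∀ r : ℤ, 0 ≤ r → r < 83 → inl [(0, 18), (21, 21), (28, 28), (42, 46)] r = true → Sd (PPh 2) 83 (VU 2) r :=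
  deadA (V := V_DUh) (by norm_num) (q_cls.2.2 2) (cell_DUh (q_cls.2.2 2)) (q_fam.2.2 2) (q_symI (PPh 2) V_DUh 83 [(0, 18), (21, 21), (28, 28), (42, 46)]) k_DUh_83

lemma s_DH1_83 : ∀ r : ℤ, 0 ≤ r → r < 83 → inl [(1, 36), (42, 54), (56, 61), (63, 64)] r = true → Sd PP1 83 (VH 2) r :=
  deadA (V := V_DH1) (by norm_num) q_cls.2.1 (cell_DH1 q_cls.2.1) q_fam.2.1 (q_symI PP1 V_DH1 83 [(1, 36), (42, 54), (56, 61), (63, 64)]) k_DH1_83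

lemma s_DHh_83 : ∀ r : ℤ, 0 ≤ r → r < 83 → inl [(0, 32), (34, 34), (42, 48), (50, 50)] r = true → Sd (PPh 2) 83 (VH 2) r :=
  deadA (V := V_DHh) (by norm_num) (q_cls.2.2 2) (cell_DHh (q_cls.2.2 2)) (q_fam.2.2 2) (q_symI (PPh 2) V_DHh 83 [(0, 32), (34, 34), (42, 48), (50, 50)]) k_DHh_83

lemma pa_D_83 : PA 83 2 :=
  ⟨covq 83 (by norm_num) (by norm_num) (by decide +kernel) s_DU1_83 s_DU1_83,
    covq 83 (by norm_num) (by norm_num) (by decide +kernel) s_DUh_83 s_DH1_83,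
    covq 83 (by norm_num) (by norm_num) (by decide +kernel) s_DHh_83 s_DHh_83⟩

theorem dead_83 : DeadAll 83 := mkDead 83 (by norm_num) th_83 be_83 pa_W_83 pa_T_83 pa_D_83

end Pool.Agent.Lib.MP_0bc52e_nt.K
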