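import Pool.Agent.Lib.MP_0bc52e_nt.K.Uni

/-!
The certificates for the modulus 89 (MP_0bc52e_nt).
-/

namespace Pool.Agent.Lib.MP_0bc52e_nt.K

open Pool.Agent.Lib.MP_0bc52e_nt.LC Pool.Agent.Lib.MP_0bc52e_nt.T Pool.Agent.Lib.MP_0bc52e_nt.R

lemma th_89 : ∀ R ∈ Theta, ∀ u, Dd PP0 89 (R.map toP) u :=
  theta_all (P := fun V => ∀ u, Dd PP0 89 V u) (u_th4 (by norm_num))
    (u_th5 (by norm_num))
    (u_th7 (by norm_num))
    (u_th11 (by norm_num))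
    (u_th13 (by norm_num))
    (u_th17 (by norm_num))
    (u_th19 (by norm_num))
    (u_th20 (by norm_num))

lemma be_89 : ∀ R ∈ Beta, ∀ u, Dd PP0 89 (R.map toP) u :=
  beta_all (P := fun V => ∀ u, Dd PP0 89 V u) (u_b11 (by norm_num))
    (u_b12 (by norm_num))
    (u_b13 (by norm_num))
    (u_b14 (by norm_num))
    (u_b15 (by norm_num))
    (u_b21 (by norm_num))
    (u_b23 (by norm_num))
    (u_b25 (by norm_num))
    (u_b27 (by norm_num))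
    (u_b31 (by norm_num))
    (u_b35 (by norm_num))
    (u_b37 (by norm_num))
    (u_b311 (by norm_num))
    (u_bi3 (by norm_num))

lemma s_WU1_89 : ∀ r : ℤ, 0 ≤ r → r < 89 → inl [(0, 16), (18, 20), (23, 26), (30, 34), (36, 36), (45, 52), (54, 54), (60, 62), (67, 68), (72, 72)] r = true → Sd PP1 89 (VU 0) r :=
  deadA (V := V_WU1) (by norm_num) q_cls.2.1 (cell_WU1 q_cls.2.1) q_fam.2.1 (q_sym1 V_WU1 S_WU1 89 [(0, 16), (18, 20), (23, 26), (30, 34), (36, 36), (45, 52), (54, 54), (60, 62), (67, 68), (72, 72)] (by norm_num) ck_WU1 blk_WU1) k_WU1_89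

lemma s_WUh_89 : ∀ r : ℤ, 0 ≤ r → r < 89 → inl [(0, 11)] r = true → Sd (PPh 0) 89 (VU 0) r :=
  deadA (V := V_WUh) (by norm_num) (q_cls.2.2 0) (cell_WUh (q_cls.2.2 0)) (q_fam.2.2 0) (q_symI (PPh 0) V_WUh 89 [(0, 11)]) k_WUh_89

lemma s_WH1_89 : ∀ r : ℤ, 0 ≤ r → r < 89 → inl [(1, 77)] r = true → Sd PP1 89 (VH 0) r :=
  deadA (V := V_WH1) (by norm_num) q_cls.2.1 (cell_WH1 q_cls.2.1) q_fam.2.1 (q_symI PP1 V_WH1 89 [(1, 77)]) k_WH1_89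

lemma s_WHh_89 : ∀ r : ℤ, 0 ≤ r → r < 89 → inl [(0, 38), (45, 50)] r = true → Sd (PPh 0) 89 (VH 0) r :=
  deadA (V := V_WHh) (by norm_num) (q_cls.2.2 0) (cell_WHh (q_cls.2.2 0)) (q_fam.2.2 0) (q_symI (PPh 0) V_WHh 89 [(0, 38), (45, 50)]) k_WHh_89

lemma pa_W_89 : PA 89 0 :=
  ⟨covq 89 (by norm_num) (by norm_num) (by decide +kernel) s_WU1_89 s_WU1_89,
    covq 89 (by norm_num) (by norm_num) (by decide +kernel) s_WUh_89 s_WH1_89,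
    covq 89 (by norm_num) (by norm_num) (by decide +kernel) s_WHh_89 s_WHh_89⟩

lemma s_TU1_89 : ∀ r : ℤ, 0 ≤ r → r < 89 → inl [(0, 21), (23, 27), (30, 33), (36, 37), (45, 51), (54, 55), (60, 61), (67, 67)] r = true → Sd PP1 89 (VU 1) r :=
  deadA (V := V_TU1) (by norm_num) q_cls.2.1 (cell_TU1 q_cls.2.1) q_fam.2.1 (q_sym1 V_TU1 S_TU1 89 [(0, 21), (23, 27), (30, 33), (36, 37), (45, 51), (54, 55), (60, 61), (67, 67)] (by norm_num) ck_TU1 blk_TU1) k_TU1_89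

lemma s_TUh_89 : ∀ r : ℤ, 0 ≤ r → r < 89 → inl [(0, 20)] r = true → Sd (PPh 1) 89 (VU 1) r :=
  deadA (V := V_TUh) (by norm_num) (q_cls.2.2 1) (cell_TUh (q_cls.2.2 1)) (q_fam.2.2 1) (q_symI (PPh 1) V_TUh 89 [(0, 20)]) k_TUh_89

lemma s_TH1_89 : ∀ r : ℤ, 0 ≤ r → r < 89 → inl [(1, 68)] r = true → Sd PP1 89 (VH 1) r :=
  deadA (V := V_TH1) (by norm_num) q_cls.2.1 (cell_TH1 q_cls.2.1) q_fam.2.1 (q_symI PP1 V_TH1 89 [(1, 68)]) k_TH1_89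

lemma s_THh_89 : ∀ r : ℤ, 0 ≤ r → r < 89 → inl [(0, 36), (38, 38), (45, 50), (52, 52)] r = true → Sd (PPh 1) 89 (VH 1) r :=
  deadA (V := V_THh) (by norm_num) (q_cls.2.2 1) (cell_THh (q_cls.2.2 1)) (q_fam.2.2 1) (q_symI (PPh 1) V_THh 89 [(0, 36), (38, 38), (45, 50), (52, 52)]) k_THh_89

lemma pa_T_89 : PA 89 1 :=
  ⟨covq 89 (by norm_num) (by norm_num) (by decide +kernel) s_TU1_89 s_TU1_89,
    covq 89 (by norm_num) (by norm_num) (by decide +kernel) s_TUh_89 s_TH1_89,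
    covq 89 (by norm_num) (by norm_num) (by decide +kernel) s_THh_89 s_THh_89⟩

lemma s_DU1_89 : ∀ r : ℤ, 0 ≤ r → r < 89 → inl [(0, 21), (23, 27), (30, 34), (36, 36), (45, 52), (54, 54), (60, 61), (67, 67)] r = true → Sd PP1 89 (VU 2) r :=
  deadA (V := V_DU1) (by norm_num) q_cls.2.1 (cell_DU1 q_cls.2.1) q_fam.2.1 (q_sym1 V_DU1 S_DU1 89 [(0, 21), (23, 27), (30, 34), (36, 36), (45, 52), (54, 54), (60, 61), (67, 67)] (by norm_num) ck_DU1 blk_DU1) k_DU1_89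

lemma s_DUh_89 : ∀ r : ℤ, 0 ≤ r → r < 89 → inl [(0, 20), (30, 30), (45, 48)] r = true → Sd (PPh 2) 89 (VU 2) r :=
  deadA (V := V_DUh) (by norm_num) (q_cls.2.2 2) (cell_DUh (q_cls.2.2 2)) (q_fam.2.2 2) (q_symI (PPh 2) V_DUh 89 [(0, 20), (30, 30), (45, 48)]) k_DUh_89

lemma s_DH1_89 : ∀ r : ℤ, 0 ≤ r → r < 89 → inl [(1, 40), (45, 58), (60, 68)] r = true → Sd PP1 89 (VH 2) r :=
  deadA (V := V_DH1) (by norm_num) q_cls.2.1 (cell_DH1 q_cls.2.1) q_fam.2.1 (q_symI PP1 V_DH1 89 [(1, 40), (45, 58), (60, 68)]) k_DH1_89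

lemma s_DHh_89 : ∀ r : ℤ, 0 ≤ r → r < 89 → inl [(0, 34), (36, 36), (45, 52), (54, 54)] r = true → Sd (PPh 2) 89 (VH 2) r :=
  deadA (V := V_DHh) (by norm_num) (q_cls.2.2 2) (cell_DHh (q_cls.2.2 2)) (q_fam.2.2 2) (q_symI (PPh 2) V_DHh 89 [(0, 34), (36, 36), (45, 52), (54, 54)]) k_DHh_89

lemma pa_D_89 : PA 89 2 :=
  ⟨covq 89 (by norm_num) (by norm_num) (by decide +kernel) s_DU1_89 s_DU1_89,
    covq 89 (by norm_num) (by norm_num) (by decide +kernel) s_DUh_89 s_DH1_89,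
    covq 89 (by norm_num) (by norm_num) (by decide +kernel) s_DHh_89 s_DHh_89⟩

theorem dead_89 : DeadAll 89 := mkDead 89 (by norm_num) th_89 be_89 pa_W_89 pa_T_89 pa_D_89

end Pool.Agent.Lib.MP_0bc52e_nt.K
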