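import Pool.Agent.Lib.MP_0bc52e_nt.K.Uni

/-!
The certificates for the modulus 97 (MP_0bc52e_nt).
-/

namespace Pool.Agent.Lib.MP_0bc52e_nt.K

open Pool.Agent.Lib.MP_0bc52e_nt.LC Pool.Agent.Lib.MP_0bc52e_nt.T Pool.Agent.Lib.MP_0bc52e_nt.R

lemma th_97 : ∀ R ∈ Theta, ∀ u, Dd PP0 97 (R.map toP) u :=
  theta_all (P := fun V => ∀ u, Dd PP0 97 V u) (u_th4 (by norm_num))
    (u_th5 (by norm_num))
    (u_th7 (by norm_num))
    (u_th11 (by norm_num))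
    (u_th13 (by norm_num))
    (u_th17 (by norm_num))
    (u_th19 (by norm_num))
    (u_th20 (by norm_num))

lemma be_97 : ∀ R ∈ Beta, ∀ u, Dd PP0 97 (R.map toP) u :=
  beta_all (P := fun V => ∀ u, Dd PP0 97 V u) (u_b11 (by norm_num))
    (u_b12 (by norm_num))
    (u_b13 (by norm_num))
    (u_b14 (by norm_num))
    (u_b15 (by norm_num))
    (u_b21 (by norm_num))
    (u_b23 (by norm_num))
    (u_b25 (by norm_num))
    (u_b27 (by norm_num))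
    (u_b31 (by norm_num))
    (u_b35 (by norm_num))
    (u_b37 (by norm_num))
    (u_b311 (by norm_num))
    (u_bi3 (by norm_num))

lemma s_WU1_97 : ∀ r : ℤ, 0 ≤ r → r < 97 → inl [(0, 15), (17, 18), (20, 22), (25, 28), (33, 37), (39, 40), (49, 56), (59, 59), (65, 68), (73, 74), (78, 78), (81, 81)] r = true → Sd PP1 97 (VU 0) r :=
  deadA (V := V_WU1) (by norm_num) q_cls.2.1 (cell_WU1 q_cls.2.1) q_fam.2.1 (q_sym1 V_WU1 S_WU1 97 [(0, 15), (17, 18), (20, 22), (25, 28), (33, 37), (39, 40), (49, 56), (59, 59), (65, 68), (73, 74), (78, 78), (81, 81)] (by norm_num) ck_WU1 blk_WU1) k_WU1_97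

lemma s_WUh_97 : ∀ r : ℤ, 0 ≤ r → r < 97 → inl [(0, 12)] r = true → Sd (PPh 0) 97 (VU 0) r :=
  deadA (V := V_WUh) (by norm_num) (q_cls.2.2 0) (cell_WUh (q_cls.2.2 0)) (q_fam.2.2 0) (q_symI (PPh 0) V_WUh 97 [(0, 12)]) k_WUh_97

lemma s_WH1_97 : ∀ r : ℤ, 0 ≤ r → r < 97 → inl [(1, 84)] r = true → Sd PP1 97 (VH 0) r :=
  deadA (V := V_WH1) (by norm_num) q_cls.2.1 (cell_WH1 q_cls.2.1) q_fam.2.1 (q_symI PP1 V_WH1 97 [(1, 84)]) k_WH1_97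

lemma s_WHh_97 : ∀ r : ℤ, 0 ≤ r → r < 97 → inl [(0, 42), (49, 54)] r = true → Sd (PPh 0) 97 (VH 0) r :=
  deadA (V := V_WHh) (by norm_num) (q_cls.2.2 0) (cell_WHh (q_cls.2.2 0)) (q_fam.2.2 0) (q_symI (PPh 0) V_WHh 97 [(0, 42), (49, 54)]) k_WHh_97

lemma pa_W_97 : PA 97 0 :=
  ⟨covq 97 (by norm_num) (by norm_num) (by decide +kernel) s_WU1_97 s_WU1_97,
    covq 97 (by norm_num) (by norm_num) (by decide +kernel) s_WUh_97 s_WH1_97,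
    covq 97 (by norm_num) (by norm_num) (by decide +kernel) s_WHh_97 s_WHh_97⟩

lemma s_TU1_97 : ∀ r : ℤ, 0 ≤ r → r < 97 → inl [(0, 15), (17, 18), (20, 23), (25, 29), (33, 37), (39, 40), (49, 56), (59, 59), (65, 67), (73, 73), (78, 78), (81, 81)] r = true → Sd PP1 97 (VU 1) r :=
  deadA (V := V_TU1) (by norm_num) q_cls.2.1 (cell_TU1 q_cls.2.1) q_fam.2.1 (q_sym1 V_TU1 S_TU1 97 [(0, 15), (17, 18), (20, 23), (25, 29), (33, 37), (39, 40), (49, 56), (59, 59), (65, 67), (73, 73), (78, 78), (81, 81)] (by norm_num) ck_TU1 blk_TU1) k_TU1_97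

lemma s_TUh_97 : ∀ r : ℤ, 0 ≤ r → r < 97 → inl [(0, 15), (17, 18), (20, 21)] r = true → Sd (PPh 1) 97 (VU 1) r :=
  deadA (V := V_TUh) (by norm_num) (q_cls.2.2 1) (cell_TUh (q_cls.2.2 1)) (q_fam.2.2 1) (q_symI (PPh 1) V_TUh 97 [(0, 15), (17, 18), (20, 21)]) k_TUh_97

lemma s_TH1_97 : ∀ r : ℤ, 0 ≤ r → r < 97 → inl [(1, 75), (78, 78), (81, 81)] r = true → Sd PP1 97 (VH 1) r :=
  deadA (V := V_TH1) (by norm_num) q_cls.2.1 (cell_TH1 q_cls.2.1) q_fam.2.1 (q_symI PP1 V_TH1 97 [(1, 75), (78, 78), (81, 81)]) k_TH1_97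

lemma s_THh_97 : ∀ r : ℤ, 0 ≤ r → r < 97 → inl [(0, 38), (40, 40), (42, 42), (49, 54), (56, 56), (58, 58)] r = true → Sd (PPh 1) 97 (VH 1) r :=
  deadA (V := V_THh) (by norm_num) (q_cls.2.2 1) (cell_THh (q_cls.2.2 1)) (q_fam.2.2 1) (q_symI (PPh 1) V_THh 97 [(0, 38), (40, 40), (42, 42), (49, 54), (56, 56), (58, 58)]) k_THh_97

lemma pa_T_97 : PA 97 1 :=
  ⟨covq 97 (by norm_num) (by norm_num) (by decide +kernel) s_TU1_97 s_TU1_97,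
    covq 97 (by norm_num) (by norm_num) (by decide +kernel) s_TUh_97 s_TH1_97,
    covq 97 (by norm_num) (by norm_num) (by decide +kernel) s_THh_97 s_THh_97⟩

lemma s_DU1_97 : ∀ r : ℤ, 0 ≤ r → r < 97 → inl [(0, 23), (25, 29), (33, 37), (39, 39), (49, 57), (59, 59), (65, 67), (73, 73)] r = true → Sd PP1 97 (VU 2) r :=
  deadA (V := V_DU1) (by norm_num) q_cls.2.1 (cell_DU1 q_cls.2.1) q_fam.2.1 (q_sym1 V_DU1 S_DU1 97 [(0, 23), (25, 29), (33, 37), (39, 39), (49, 57), (59, 59), (65, 67), (73, 73)] (by norm_num) ck_DU1 blk_DU1) k_DU1_97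

lemma s_DUh_97 : ∀ r : ℤ, 0 ≤ r → r < 97 → inl [(0, 22), (49, 52)] r = true → Sd (PPh 2) 97 (VU 2) r :=
  deadA (V := V_DUh) (by norm_num) (q_cls.2.2 2) (cell_DUh (q_cls.2.2 2)) (q_fam.2.2 2) (q_symI (PPh 2) V_DUh 97 [(0, 22), (49, 52)]) k_DUh_97

lemma s_DH1_97 : ∀ r : ℤ, 0 ≤ r → r < 97 → inl [(1, 44), (49, 74)] r = true → Sd PP1 97 (VH 2) r :=
  deadA (V := V_DH1) (by norm_num) q_cls.2.1 (cell_DH1 q_cls.2.1) q_fam.2.1 (q_symI PP1 V_DH1 97 [(1, 44), (49, 74)]) k_DH1_97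

lemma s_DHh_97 : ∀ r : ℤ, 0 ≤ r → r < 97 → inl [(0, 36), (38, 38), (40, 40), (49, 56), (58, 58), (60, 60)] r = true → Sd (PPh 2) 97 (VH 2) r :=
  deadA (V := V_DHh) (by norm_num) (q_cls.2.2 2) (cell_DHh (q_cls.2.2 2)) (q_fam.2.2 2) (q_symI (PPh 2) V_DHh 97 [(0, 36), (38, 38), (40, 40), (49, 56), (58, 58), (60, 60)]) k_DHh_97

lemma pa_D_97 : PA 97 2 :=
  ⟨covq 97 (by norm_num) (by norm_num) (by decide +kernel) s_DU1_97 s_DU1_97,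
    covq 97 (by norm_num) (by norm_num) (by decide +kernel) s_DUh_97 s_DH1_97,
    covq 97 (by norm_num) (by norm_num) (by decide +kernel) s_DHh_97 s_DHh_97⟩

theorem dead_97 : DeadAll 97 := mkDead 97 (by norm_num) th_97 be_97 pa_W_97 pa_T_97 pa_D_97

end Pool.Agent.Lib.MP_0bc52e_nt.K
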